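import Mathlib
import Pool.Agent.Helper325.BorsukUlam

set_option autoImplicit false
set_option linter.unusedSectionVars false

/-! # Chains of lists over a commutative ring -/

namespace Pool.Agent.R391.FS

open Finsupp

section Algebra

variable {R : Type} [CommRing R] {V W : Type}

/-- formal sums of lists -/
abbrev Ch (R : Type) [CommRing R] (V : Type) := List V →₀ R

noncomputable def cone (v : V) : Ch R V →ₗ[R] Ch R V :=
  Finsupp.lmapDomain R R (List.cons v)

theorem cone_single (v : V) (l : List V) (c : R) :
    cone v (single l c) = single (v :: l) c := by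
  simp [cone]

noncomputable def bdL : List V → Ch R V
  | [] => 0
  | v :: l => single l 1 - cone v (bdL l)

noncomputable def bd : Ch R V →ₗ[R] Ch R V := Finsupp.linearCombination R bdL

theorem bd_single (l : List V) (a : R) : bd (single l a) = a • (bdL l : Ch R V) := by
  simp [bd]

theorem bd_one (l : List V) : bd (single l (1 : R)) = bdL l := by
  rw [bd_single, one_smul]

theorem bd_cone (v : V) (c : Ch R V) : bd (cone v c) = c - cone v (bd c) := by
  induction c using Finsupp.induction_linear with
  | zero => simp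
  | add f g hf hg => simp only [map_add, hf, hg]; abel
  | single l a =>
    rw [cone_single, bd_single, bd_single, bdL, smul_sub, map_smul]
    simp

theorem bd_bdL (l : List V) : bd (bdL l : Ch R V) = 0 := by
  induction l with
  | nil => simp [bdL]
  | cons v l ih =>
    rw [bdL, map_sub, bd_cone, ih, bd_single, map_zero, sub_zero, one_smul, sub_self]

theorem bd_bd (c : Ch R V) : bd (bd c) = 0 := by
  induction c using Finsupp.induction_linear with
  | zero => simp
  | add f g hf hg => simp only [map_add, hf, hg]; simp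
  | single l a => rw [bd_single, map_smul, bd_bdL, smul_zero]

/-- functoriality -/
noncomputable def mp (f : V → W) : Ch R V →ₗ[R] Ch R W :=
  Finsupp.lmapDomain R R (List.map f)

theorem mp_single (f : V → W) (l : List V) (c : R) :
    mp f (single l c) = single (l.map f) c := by
  simp [mp]

theorem mp_cone (f : V → W) (v : V) (c : Ch R V) : mp f (cone v c) = cone (f v) (mp f c) := by
  induction c using Finsupp.induction_linear with
  | zero => simp
  | add f g hf hg => simp only [map_add, hf, hg]
  | single l b => rw [cone_single, mp_single, mp_single, cone_single, List.map_cons]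

theorem mp_bdL (f : V → W) (l : List V) : mp f (bdL l : Ch R V) = bdL (l.map f) := by
  induction l with
  | nil => simp [bdL]
  | cons v l ih =>
    rw [bdL, map_sub, mp_single, mp_cone, ih, List.map_cons, bdL]

theorem mp_bd (f : V → W) (c : Ch R V) : mp f (bd c) = bd (mp f c) := by
  induction c using Finsupp.induction_linear with
  | zero => simp
  | add f g hf hg => simp only [map_add, hf, hg]
  | single l b => rw [bd_single, map_smul, mp_bdL, mp_single, bd_single]

theorem mp_id (c : Ch R V) : mp (fun v => v) c = c := by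
  induction c using Finsupp.induction_linear with
  | zero => simp
  | add f g hf hg => simp only [map_add, hf, hg]
  | single l b => rw [mp_single, List.map_id']

theorem mp_mp {X : Type} (f : V → W) (g : W → X) (c : Ch R V) :
    mp g (mp f c) = mp (fun v => g (f v)) c := by
  induction c using Finsupp.induction_linear with
  | zero => simp
  | add f g hf hg => simp only [map_add, hf, hg]
  | single l b =>
    rw [mp_single, mp_single, mp_single, List.map_map]
    rfl

/-- `1 - s` -/
noncomputable def DD (s : V → V) : Ch R V →ₗ[R] Ch R V := LinearMap.id - mp s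

/-- `1 + s + ... + s ^ (p-1)` -/
noncomputable def NN (p : ℕ) (s : V → V) : Ch R V →ₗ[R] Ch R V :=
  ∑ i ∈ Finset.range p, mp (s^[i])

theorem DD_apply (s : V → V) (c : Ch R V) : DD s c = c - mp s c := rfl

theorem NN_apply (p : ℕ) (s : V → V) (c : Ch R V) :
    NN p s c = ∑ i ∈ Finset.range p, mp (s^[i]) c := by
  simp [NN]

theorem bd_DD (s : V → V) (c : Ch R V) : bd (DD s c) = DD s (bd c) := by
  rw [DD_apply, DD_apply, map_sub, mp_bd]

theorem bd_NN (p : ℕ) (s : V → V) (c : Ch R V) : bd (NN p s c) = NN p s (bd c) := by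
  rw [NN_apply, NN_apply, map_sum]
  simp_rw [mp_bd]

theorem DD_NN (p : ℕ) (s : V → V) (hs : ∀ v, s^[p] v = v) (c : Ch R V) :
    DD s (NN p s c) = 0 := by
  rw [DD_apply, NN_apply, map_sum]
  have h1 : ∀ i, mp s (mp (s^[i]) c) = mp (s^[i + 1]) c := by
    intro i
    rw [mp_mp]
    congr 2
    funext v
    rw [Function.iterate_succ_apply']
  simp_rw [h1]
  rw [← Finset.sum_sub_distrib]
  have h2 := Finset.sum_range_sub' (fun i => mp (s^[i]) c) p
  rw [h2]
  have h3 : mp (s^[p]) c = c := by
    have : (s^[p] : V → V) = fun v => v := funext hs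
    rw [this, mp_id]
  have h4 : mp (s^[0]) c = c := by
    have : (s^[0] : V → V) = fun v => v := funext fun v => rfl
    rw [this, mp_id]
  rw [h3, h4, sub_self]

theorem NN_DD (p : ℕ) (s : V → V) (hs : ∀ v, s^[p] v = v) (c : Ch R V) :
    NN p s (DD s c) = 0 := by
  rw [DD_apply, NN_apply]
  simp_rw [map_sub]
  have h1 : ∀ i, mp (s^[i]) (mp s c) = mp (s^[i + 1]) c := by
    intro i
    rw [mp_mp]
    congr 2
  simp_rw [h1]
  have h2 := Finset.sum_range_sub' (fun i => mp (s^[i]) c) p
  rw [h2]
  have h3 : mp (s^[p]) c = c := by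
    have : (s^[p] : V → V) = fun v => v := funext hs
    rw [this, mp_id]
  have h4 : mp (s^[0]) c = c := by
    have : (s^[0] : V → V) = fun v => v := funext fun v => rfl
    rw [this, mp_id]
  rw [h3, h4, sub_self]

/-- the operator used in step `k` -/
noncomputable def op (p : ℕ) (s : V → V) (k : ℕ) : Ch R V →ₗ[R] Ch R V :=
  if k % 2 = 0 then DD s else NN p s

theorem bd_op (p : ℕ) (s : V → V) (k : ℕ) (c : Ch R V) : bd (op p s k c) = op p s k (bd c) := by
  unfold op
  split_ifs
  · exact bd_DD s c
  · exact bd_NN p s c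

theorem op_op (p : ℕ) (s : V → V) (hs : ∀ v, s^[p] v = v) (k : ℕ) (c : Ch R V) :
    op p s (k + 1) (op p s k c) = 0 := by
  unfold op
  by_cases h : k % 2 = 0
  · rw [if_pos h, if_neg (by omega)]
    exact NN_DD p s hs c
  · rw [if_neg h, if_pos (by omega)]
    exact DD_NN p s hs c

end Algebra

section Supports

variable {R : Type} [CommRing R] {V W : Type}

/-- chains supported on lists with property `P` -/
def Sp (R : Type) [CommRing R] {V : Type} (P : List V → Prop) : Submodule R (Ch R V) :=
  Finsupp.supported R R {l | P l}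

theorem single_mem_S {P : List V → Prop} {l : List V} (h : P l) (a : R) :
    single l a ∈ Sp R P :=
  Finsupp.single_mem_supported R a h

theorem S_eq_span (P : List V → Prop) :
    Sp R P = Submodule.span R ((fun l => single l (1 : R)) '' {l | P l}) :=
  Finsupp.supported_eq_span_single R _

theorem lin_eq_zero {M : Type} [AddCommGroup M] [Module R M]
    (T : Ch R V →ₗ[R] M) {P : List V → Prop} (h : ∀ l, P l → T (single l 1) = 0)
    {c : Ch R V} (hc : c ∈ Sp R P) : T c = 0 := by
  have : Sp R P ≤ LinearMap.ker T := by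
    rw [S_eq_span, Submodule.span_le]
    rintro _ ⟨l, hl, rfl⟩
    exact h l hl
  exact this hc

theorem lin_eq {M : Type} [AddCommGroup M] [Module R M]
    (T T' : Ch R V →ₗ[R] M) {P : List V → Prop}
    (h : ∀ l, P l → T (single l 1) = T' (single l 1))
    {c : Ch R V} (hc : c ∈ Sp R P) : T c = T' c := by
  have := lin_eq_zero (T - T') (P := P) (fun l hl => by
    rw [LinearMap.sub_apply, h l hl, sub_self]) hc
  rw [LinearMap.sub_apply] at this
  exact sub_eq_zero.1 this

theorem lin_mem (T : Ch R V →ₗ[R] Ch R W) {P : List V → Prop} {Q : List W → Prop}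
    (h : ∀ l, P l → T (single l 1) ∈ Sp R Q) {c : Ch R V} (hc : c ∈ Sp R P) : T c ∈ Sp R Q := by
  have : Sp R P ≤ (Sp R Q).comap T := by
    rw [S_eq_span, Submodule.span_le]
    rintro _ ⟨l, hl, rfl⟩
    exact h l hl
  exact this hc

theorem S_mono {P Q : List V → Prop} (h : ∀ l, P l → Q l) {c : Ch R V} (hc : c ∈ Sp R P) :
    c ∈ Sp R Q :=
  lin_mem LinearMap.id (fun l hl => by simpa using single_mem_S (h l hl) (1 : R)) hc

theorem cone_mem_S {P Q : List V → Prop} (v : V) (h : ∀ l, P l → Q (v :: l)) {c : Ch R V}
    (hc : c ∈ Sp R P) : cone v c ∈ Sp R Q :=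
  lin_mem (cone v) (fun l hl => by rw [cone_single]; exact single_mem_S (h l hl) 1) hc

theorem mp_mem_S {P : List V → Prop} {Q : List W → Prop} (f : V → W)
    (h : ∀ l, P l → Q (l.map f)) {c : Ch R V} (hc : c ∈ Sp R P) : mp f c ∈ Sp R Q :=
  lin_mem (mp f) (fun l hl => by rw [mp_single]; exact single_mem_S (h l hl) 1) hc

theorem op_mem_S {P : List V → Prop} (p : ℕ) (s : V → V) (k : ℕ)
    (h : ∀ l, P l → P (l.map s)) {c : Ch R V} (hc : c ∈ Sp R P) : op p s k c ∈ Sp R P := by
  have hit : ∀ (i : ℕ) (l : List V), P l → P (l.map (s^[i])) := by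
    intro i
    induction i with
    | zero => intro l hl; simpa using hl
    | succ i ih =>
      intro l hl
      rw [Function.iterate_succ', ← List.map_map]
      exact h _ (ih l hl)
  unfold op
  split_ifs
  · rw [DD_apply]
    exact Submodule.sub_mem _ hc (mp_mem_S s h hc)
  · rw [NN_apply]
    exact Submodule.sum_mem _ fun i _ => mp_mem_S _ (hit i) hc

theorem bdL_mem_S (l : List V) :
    (bdL l : Ch R V) ∈ Sp R (fun l' => l'.length + 1 = l.length ∧ l' ⊆ l) := by
  induction l with
  | nil => exact Submodule.zero_mem _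
  | cons x t ih =>
    rw [bdL]
    refine Submodule.sub_mem _ (single_mem_S ?_ 1) (cone_mem_S x ?_ ih)
    · exact ⟨by simp, List.subset_cons_self x t⟩
    · rintro l' ⟨h1, h2⟩
      exact ⟨by simp [h1], List.cons_subset_cons x h2⟩

end Supports

section Sub

open Pool.Agent.Helper325.BorsukUlam (bary)

variable {R : Type} [CommRing R] {V : Type} [AddCommGroup V] [Module ℝ V]

theorem bary_map (s : V →ₗ[ℝ] V) (l : List V) : bary (l.map s) = s (bary l) := by
  have : (l.map s).sum = s l.sum := by
    induction l with
    | nil => simp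
    | cons x t ih => simp [ih]
  simp [bary, this]

/-- barycentric subdivision on lists of length `n` -/
noncomputable def sub : ℕ → (Ch R V →ₗ[R] Ch R V)
  | 0 => LinearMap.id
  | n + 1 => Finsupp.linearCombination R (fun l => cone (bary l) (sub n (bdL l)))

theorem sub_succ_single (n : ℕ) (l : List V) (a : R) :
    sub (n + 1) (single l a) = a • cone (bary l) (sub n (bdL l)) := by
  simp [sub]

theorem bd_sub (n : ℕ) (c : Ch R V) : bd (sub (n + 1) c) = sub n (bd c) := by
  induction n generalizing c with
  | zero =>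
    induction c using Finsupp.induction_linear with
    | zero => simp
    | add f g hf hg => simp only [map_add, hf, hg]
    | single l a =>
      rw [sub_succ_single, map_smul, bd_cone, bd_single]
      simp [sub, bd_bdL]
  | succ n ih =>
    induction c using Finsupp.induction_linear with
    | zero => simp
    | add f g hf hg => simp only [map_add, hf, hg]
    | single l a =>
      rw [sub_succ_single, map_smul, bd_cone, ih, bd_bdL, map_zero, map_zero, sub_zero, bd_single,
        map_smul]

theorem mp_sub (s : V →ₗ[ℝ] V) (n : ℕ) (c : Ch R V) : mp s (sub n c) = sub n (mp s c) := by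
  induction n generalizing c with
  | zero => rfl
  | succ n ih =>
    induction c using Finsupp.induction_linear with
    | zero => simp
    | add f g hf hg => simp only [map_add, hf, hg]
    | single l a =>
      rw [sub_succ_single, map_smul, mp_cone, ih, mp_bdL, mp_single, sub_succ_single, bary_map]

theorem mp_sub_iter (s : V →ₗ[ℝ] V) (i n : ℕ) (c : Ch R V) :
    mp (s^[i]) (sub n c) = sub n (mp (s^[i]) c) := by
  have : (s^[i] : V → V) = ((s ^ i : V →ₗ[ℝ] V) : V → V) := by
    funext v
    rw [Module.End.pow_apply]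
  rw [this]
  exact mp_sub (s ^ i) n c

theorem op_sub (p : ℕ) (s : V →ₗ[ℝ] V) (k n : ℕ) (c : Ch R V) :
    op p s k (sub n c) = sub n (op p s k c) := by
  unfold op
  split_ifs
  · rw [DD_apply, DD_apply, map_sub, mp_sub]
  · rw [NN_apply, NN_apply, map_sum]
    simp_rw [mp_sub_iter]

/-! ### the join -/

noncomputable def z (p : ℕ) (s : V → V) (w : ℕ → V) : ℕ → Ch R V
  | 0 => single [] 1
  | k + 1 => op p s k (cone (w k) (z p s w k))

noncomputable def h (p : ℕ) (s : V → V) (w : ℕ → V) (k : ℕ) : Ch R V :=
  cone (w k) (z p s w k)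

theorem op_z (p : ℕ) (s : V → V) (hs : ∀ v, s^[p] v = v) (w : ℕ → V) (k : ℕ) :
    op p s k (z p s w k : Ch R V) = 0 := by
  cases k with
  | zero =>
    unfold op
    rw [if_pos rfl, DD_apply, z, mp_single]
    simp
  | succ k => rw [z, op_op p s hs]

theorem bd_z (p : ℕ) (s : V → V) (hs : ∀ v, s^[p] v = v) (w : ℕ → V) (k : ℕ) :
    bd (z p s w k : Ch R V) = 0 := by
  induction k with
  | zero => simp [z, bd_single, bdL]
  | succ k ih =>
    rw [z, bd_op, bd_cone, ih, map_zero, sub_zero, op_z p s hs]

theorem bd_h (p : ℕ) (s : V → V) (hs : ∀ v, s^[p] v = v) (w : ℕ → V) (k : ℕ) :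
    bd (h p s w k : Ch R V) = z p s w k := by
  rw [h, bd_cone, bd_z p s hs, map_zero, sub_zero]

noncomputable def H (p : ℕ) (s : V → V) (w : ℕ → V) (r k : ℕ) : Ch R V :=
  (sub (k + 1))^[r] (h p s w k)

theorem bd_iter (r k : ℕ) (c : Ch R V) : bd ((sub (k + 1))^[r] c) = (sub k)^[r] (bd c) := by
  induction r generalizing c with
  | zero => rfl
  | succ r ih => rw [Function.iterate_succ_apply, ih, bd_sub, Function.iterate_succ_apply]

theorem op_iter (p : ℕ) (s : V →ₗ[ℝ] V) (j r k : ℕ) (c : Ch R V) :
    op p s j ((sub k)^[r] c) = (sub k)^[r] (op p s j c) := by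
  induction r generalizing c with
  | zero => rfl
  | succ r ih => rw [Function.iterate_succ_apply, ih, op_sub, Function.iterate_succ_apply]

theorem bd_H_succ (p : ℕ) (s : V →ₗ[ℝ] V) (hs : ∀ v, s^[p] v = v) (w : ℕ → V) (r k : ℕ) :
    bd (H p s w r (k + 1) : Ch R V) = op p s k (H p s w r k) := by
  rw [H, bd_iter, bd_h p s hs, z, H, op_iter]
  rfl

theorem bd_H_zero (p : ℕ) (s : V → V) (hs : ∀ v, s^[p] v = v) (w : ℕ → V) (r : ℕ) :
    bd (H p s w r 0 : Ch R V) = single [] 1 := by
  rw [H, bd_iter, bd_h p s hs, z]
  have : ∀ c : Ch R V, (sub 0)^[r] c = c := by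
    intro c
    induction r with
    | zero => rfl
    | succ r ih => rw [Function.iterate_succ_apply', ih]; rfl
  exact this _

end Sub

end Pool.Agent.R391.FS
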