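import Pool.Agent.R391.FS.Chain

set_option autoImplicit false
set_option linter.unusedSectionVars false

/-! # Alternating cochains on lists of labels in `ZMod p` -/

namespace Pool.Agent.R391.FS

open Finsupp

section Alt

variable {R : Type} [CommRing R] {L : Type}

/-- alternating functionals -/
def Alt (f : Ch R L →ₗ[R] R) : Prop := ∀ (l1 : List L) (x y : L) (l2 : List L),
  f (single (l1 ++ x :: y :: l2) 1) + f (single (l1 ++ y :: x :: l2) 1) = 0 ∧
    f (single (l1 ++ x :: x :: l2) 1) = 0

theorem Alt.cone {f : Ch R L →ₗ[R] R} (hf : Alt f) (v : L) : Alt (f.comp (cone v)) := by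
  intro l1 x y l2
  have := hf (v :: l1) x y l2
  simpa [cone_single] using this

theorem cc_add {f : Ch R L →ₗ[R] R} (hf : Alt f) (x y : L) (c : Ch R L) :
    f (FS.cone x (FS.cone y c)) + f (FS.cone y (FS.cone x c)) = 0 ∧
      f (FS.cone x (FS.cone x c)) = 0 := by
  induction c using Finsupp.induction_linear with
  | zero => simp
  | add g h hg hh =>
    simp only [map_add]
    constructor
    · linear_combination hg.1 + hh.1
    · linear_combination hg.2 + hh.2
  | single l b =>
    have h1 := hf [] x y l
    simp only [List.nil_append] at h1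
    have e : ∀ (l : List L), single l b = b • single l (1 : R) := by
      intro l; simp
    simp only [cone_single]
    rw [e (x :: y :: l), e (y :: x :: l), e (x :: x :: l), map_smul, map_smul, map_smul]
    simp only [smul_eq_mul]
    constructor
    · linear_combination b * h1.1
    · linear_combination b * h1.2

theorem Alt.bd {f : Ch R L →ₗ[R] R} (hf : Alt f) : Alt (f.comp bd) := by
  intro l1
  induction l1 generalizing f with
  | nil =>
    intro x y l2
    simp only [List.nil_append, LinearMap.comp_apply, bd_one, bdL, map_sub, cone_single]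
    obtain ⟨h1, h2⟩ := cc_add hf x y (bdL l2)
    constructor
    · linear_combination h1
    · linear_combination h2
  | cons v l1 ih =>
    intro x y l2
    have h1 := ih (hf.cone v) x y l2
    have h2 := hf l1 x y l2
    simp only [LinearMap.comp_apply, bd_one] at h1
    simp only [List.cons_append, LinearMap.comp_apply, bd_one, bdL, map_sub]
    constructor
    · linear_combination h2.1 - h1.1
    · linear_combination h2.2 - h1.2

theorem Alt.perm {f : Ch R L →ₗ[R] R} (hf : Alt f) {l l' : List L} (h : l.Perm l') :
    ∀ q : List L, f (single (q ++ l') 1) = f (single (q ++ l) 1) ∨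
      f (single (q ++ l') 1) = - f (single (q ++ l) 1) := by
  induction h with
  | nil => intro q; exact Or.inl rfl
  | cons x _ ih =>
    intro q
    have := ih (q ++ [x])
    simpa using this
  | swap x y l =>
    intro q
    right
    have := (hf q x y l).1
    linear_combination this
  | trans _ _ ih1 ih2 =>
    intro q
    rcases ih1 q with h1 | h1 <;> rcases ih2 q with h2 | h2
    · left; rw [h2, h1]
    · right; rw [h2, h1]
    · right; rw [h2, h1]
    · left; rw [h2, h1, neg_neg]

theorem Alt.dup {f : Ch R L →ₗ[R] R} (hf : Alt f) {l : List L} (h : ¬ l.Nodup) :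
    f (single l 1) = 0 := by
  classical
  obtain ⟨x, hx⟩ : ∃ x, List.Duplicate x l := List.exists_duplicate_iff_not_nodup.2 h
  have h1 : ∃ l', l.Perm (x :: x :: l') := by
    rw [List.duplicate_iff_two_le_count] at hx
    have hmem : x ∈ l := List.count_pos_iff.1 (by omega)
    have h2 := List.perm_cons_erase hmem
    have h3 : x ∈ l.erase x := by
      apply List.count_pos_iff.1
      rw [List.count_erase_self]
      omega
    have h4 := List.perm_cons_erase h3
    exact ⟨(l.erase x).erase x, h2.trans (List.Perm.cons x h4)⟩
  obtain ⟨l', hl'⟩ := h1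
  have h2 := (hf [] x x l').2
  rcases hf.perm hl' [] with h3 | h3
  · simp only [List.nil_append] at h2 h3
    rw [← h3, h2]
  · simp only [List.nil_append] at h2 h3
    rw [h2] at h3
    have : f (single l 1) = -(-f (single l 1)) := by rw [neg_neg]
    rw [this, ← h3, neg_zero]

end Alt

section Zp

variable (p : ℕ) [hp : Fact p.Prime]

/-- the shift of labels -/
def sh : ZMod p → ZMod p := fun x => x + 1

theorem sh_iter (i : ℕ) (x : ZMod p) : (sh p)^[i] x = x + i := by
  induction i with
  | zero => simp
  | succ i ih =>
    rw [Function.iterate_succ_apply', ih]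
    unfold sh
    push_cast
    ring

theorem sh_p (x : ZMod p) : (sh p)^[p] x = x := by
  rw [sh_iter]
  simp

theorem map_sh_iter (i : ℕ) (l : List (ZMod p)) :
    l.map ((sh p)^[i]) = l.map (fun x => x + (i : ZMod p)) := by
  apply List.map_congr_left
  intro x _
  exact sh_iter p i x

/-- a functional given by its values on lists -/
noncomputable def fn (φ : List (ZMod p) → ZMod p) : Ch (ZMod p) (ZMod p) →ₗ[ZMod p] ZMod p :=
  Finsupp.linearCombination (ZMod p) φ

theorem fn_one (φ : List (ZMod p) → ZMod p) (l : List (ZMod p)) : fn p φ (single l 1) = φ l := by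
  simp [fn]

theorem sum_shift (l : List (ZMod p)) (c : ZMod p) :
    (l.map (fun x => x + c)).sum = l.sum + l.length * c := by
  induction l with
  | nil => simp
  | cons x t ih =>
    simp only [List.map_cons, List.sum_cons, ih, List.length_cons]
    push_cast
    ring

/-- solving `b ∘ (1 - s) = a` -/
theorem solve_even {a : Ch (ZMod p) (ZMod p) →ₗ[ZMod p] ZMod p} (ha : Alt a) {k : ℕ}
    (hk : ((k + 1 : ℕ) : ZMod p) ≠ 0)
    (hN : ∀ l : List (ZMod p), l.length = k + 1 → a (NN p (sh p) (single l 1)) = 0) :
    ∃ b : Ch (ZMod p) (ZMod p) →ₗ[ZMod p] ZMod p, Alt b ∧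
      ∀ l : List (ZMod p), l.length = k + 1 → b (DD (sh p) (single l 1)) = a (single l 1) := by
  set u : ZMod p := ((k + 1 : ℕ) : ZMod p)⁻¹ with hu
  -- position
  let ψ : List (ZMod p) → ℕ := fun l => (l.sum * u).val
  let φ : List (ZMod p) → ZMod p := fun l =>
    - ∑ i ∈ Finset.range (ψ l), a (single (l.map (fun x => x - ((i + 1 : ℕ) : ZMod p))) 1)
  refine ⟨fn p φ, ?_, ?_⟩
  · intro l1 x y l2
    rw [fn_one, fn_one, fn_one]
    have hψ : ψ (l1 ++ x :: y :: l2) = ψ (l1 ++ y :: x :: l2) := by
      simp only [ψ]
      congr 2
      simp only [List.sum_append, List.sum_cons]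
      ring
    constructor
    · simp only [φ, hψ]
      rw [← neg_add, ← Finset.sum_add_distrib, neg_eq_zero]
      apply Finset.sum_eq_zero
      intro i _
      simp only [List.map_append, List.map_cons]
      exact (ha _ _ _ _).1
    · simp only [φ]
      rw [neg_eq_zero]
      apply Finset.sum_eq_zero
      intro i _
      simp only [List.map_append, List.map_cons]
      exact (ha _ _ (x - ((i + 1 : ℕ) : ZMod p)) _).2
  · intro l hl
    rw [DD_apply, mp_single, map_sub, fn_one, fn_one]
    have hsh : l.map (sh p) = l.map (fun x => x + 1) := rfl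
    rw [hsh]
    have hψ' : (l.map (fun x => x + 1)).sum * u = l.sum * u + 1 := by
      rw [sum_shift, hl, mul_one, add_mul]
      congr 1
      rw [hu]
      exact mul_inv_cancel₀ hk
    have hpp : 1 < p := hp.out.one_lt
    have hval : (l.sum * u).val < p := ZMod.val_lt _
    have hcast : ((l.sum * u).val : ZMod p) = l.sum * u := ZMod.natCast_zmod_val _
    have hterm : ∀ i : ℕ, (l.map (fun x => x + 1)).map (fun x => x - ((i + 1 : ℕ) : ZMod p)) =
        l.map (fun x => x - (i : ZMod p)) := by
      intro i
      rw [List.map_map]
      apply List.map_congr_left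
      intro x _
      simp only [Function.comp_apply]
      push_cast
      ring
    have hl0 : l.map (fun x => x - ((0 : ℕ) : ZMod p)) = l := by
      have : (fun x : ZMod p => x - ((0 : ℕ) : ZMod p)) = fun x => x := by
        funext x
        simp
      rw [this, List.map_id']
    by_cases hlt : (l.sum * u).val + 1 < p
    · have h1 : ψ (l.map (fun x => x + 1)) = ψ l + 1 := by
        simp only [ψ]
        rw [hψ']
        have h2 : (l.sum * u + 1).val = ((l.sum * u).val + 1) % p := by
          rw [← ZMod.val_natCast]
          congr 1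
          push_cast
          rw [hcast]
        rw [h2, Nat.mod_eq_of_lt hlt]
      simp only [φ]
      rw [h1, Finset.sum_range_succ' (fun i => a (single ((l.map (fun x => x + 1)).map
        (fun x => x - ((i + 1 : ℕ) : ZMod p))) 1))]
      simp_rw [hterm]
      rw [hl0]
      ring
    · have h1 : ψ (l.map (fun x => x + 1)) = 0 := by
        simp only [ψ]
        rw [hψ']
        have h2 : (l.sum * u + 1).val = ((l.sum * u).val + 1) % p := by
          rw [← ZMod.val_natCast]
          congr 1
          push_cast
          rw [hcast]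
        have h3 : (l.sum * u).val + 1 = p := by omega
        rw [h2, h3, Nat.mod_self]
      have h2 : ψ l + 1 = p := by
        simp only [ψ]
        omega
      simp only [φ]
      rw [h1, Finset.range_zero, Finset.sum_empty, neg_zero, sub_zero]
      -- the total sum vanishes
      have h3 := hN l hl
      rw [NN_apply, map_sum] at h3
      have h4 : ∑ i ∈ Finset.range p, a (mp ((sh p)^[i]) (single l 1)) =
          ∑ i ∈ Finset.range p, a (single (l.map (fun x => x - (i : ZMod p))) 1) := by
        rw [← Finset.sum_range_reflect (fun i => a (single (l.map (fun x => x - (i : ZMod p))) 1))]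
        obtain ⟨q, hq⟩ : ∃ q, p = q + 1 := ⟨p - 1, by omega⟩
        have hrw : ∀ j ∈ Finset.range p, a (mp ((sh p)^[(j + 1) % p]) (single l 1)) =
            a (single (l.map (fun x => x - ((p - 1 - j : ℕ) : ZMod p))) 1) := by
          intro j hj
          rw [Finset.mem_range] at hj
          rw [mp_single, map_sh_iter]
          congr 2
          apply List.map_congr_left
          intro x _
          rw [Nat.cast_sub (by omega), Nat.cast_sub (by omega)]
          simp
          ring
        rw [← Finset.sum_congr rfl hrw]
        -- cyclic reindexing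
        have e1 : ∑ i ∈ Finset.range p, a (mp ((sh p)^[i]) (single l 1)) =
            ∑ i ∈ Finset.range q, a (mp ((sh p)^[i + 1]) (single l 1)) +
              a (mp ((sh p)^[0]) (single l 1)) := by
          have hr : Finset.range p = Finset.range (q + 1) := by rw [← hq]
          rw [hr, Finset.sum_range_succ']
        have e2 : ∑ i ∈ Finset.range p, a (mp ((sh p)^[(i + 1) % p]) (single l 1)) =
            ∑ i ∈ Finset.range q, a (mp ((sh p)^[i + 1]) (single l 1)) +
              a (mp ((sh p)^[0]) (single l 1)) := by
          have hr : Finset.range p = Finset.range (q + 1) := by rw [← hq]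
          rw [hr, Finset.sum_range_succ]
          congr 1
          · apply Finset.sum_congr rfl
            intro i hi
            rw [Finset.mem_range] at hi
            rw [Nat.mod_eq_of_lt (by omega)]
          · have : (q + 1) % p = 0 := by rw [← hq]; exact Nat.mod_self p
            rw [this]
        rw [e1, e2]
      have hr : Finset.range p = Finset.range (ψ l + 1) := by rw [h2]
      rw [h4, hr, Finset.sum_range_succ', hl0] at h3
      linear_combination -h3

/-- solving `b ∘ (1 + s + ... ) = a` -/
theorem solve_odd {a : Ch (ZMod p) (ZMod p) →ₗ[ZMod p] ZMod p} (ha : Alt a) {k : ℕ}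
    (hk : ((k + 1 : ℕ) : ZMod p) ≠ 0)
    (hD : ∀ l : List (ZMod p), l.length = k + 1 → a (DD (sh p) (single l 1)) = 0) :
    ∃ b : Ch (ZMod p) (ZMod p) →ₗ[ZMod p] ZMod p, Alt b ∧
      ∀ l : List (ZMod p), l.length = k + 1 → b (NN p (sh p) (single l 1)) = a (single l 1) := by
  set u : ZMod p := ((k + 1 : ℕ) : ZMod p)⁻¹ with hu
  let φ : List (ZMod p) → ZMod p := fun l => a (single l 1) * ((l.count 0 : ℕ) : ZMod p) * u
  refine ⟨fn p φ, ?_, ?_⟩
  · intro l1 x y l2
    rw [fn_one, fn_one, fn_one]
    have hc : (l1 ++ x :: y :: l2).count 0 = (l1 ++ y :: x :: l2).count 0 := by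
      apply List.Perm.count_eq
      exact List.Perm.append_left _ (List.Perm.swap _ _ _)
    simp only [φ]
    constructor
    · rw [hc]
      linear_combination (((l1 ++ y :: x :: l2).count 0 : ℕ) : ZMod p) * u * (ha l1 x y l2).1
    · rw [(ha l1 x x l2).2]
      ring
  · intro l hl
    have hinv : ∀ i : ℕ, a (single (l.map ((sh p)^[i])) 1) = a (single l 1) := by
      intro i
      induction i with
      | zero => simp
      | succ i ih =>
        have h1 := hD (l.map ((sh p)^[i])) (by rw [List.length_map, hl])
        rw [DD_apply, mp_single, map_sub, List.map_map] at h1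
        rw [Function.iterate_succ', ← ih]
        exact (sub_eq_zero.1 h1).symm
    rw [NN_apply, map_sum]
    have h1 : ∀ i ∈ Finset.range p, fn p φ (mp ((sh p)^[i]) (single l 1)) =
        a (single l 1) * u * (((l.map ((sh p)^[i])).count 0 : ℕ) : ZMod p) := by
      intro i _
      rw [mp_single, fn_one]
      simp only [φ]
      rw [hinv]
      ring
    rw [Finset.sum_congr rfl h1, ← Finset.mul_sum]
    have h2 : ∑ i ∈ Finset.range p, (l.map ((sh p)^[i])).count 0 = l.length := by
      have hcount : ∀ (m : List (ZMod p)),
          ∑ i ∈ Finset.range p, (m.map ((sh p)^[i])).count 0 = m.length := by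
        intro m
        induction m with
        | nil => simp
        | cons x t ih =>
          simp only [List.map_cons, List.count_cons, List.length_cons]
          rw [Finset.sum_add_distrib, ih]
          congr 1
          have h3 : ∀ i ∈ Finset.range p, (if ((sh p)^[i] x == 0) = true then 1 else 0) =
              if i = (-x).val then 1 else 0 := by
            intro i hi
            rw [Finset.mem_range] at hi
            rw [sh_iter]
            have : ((x + (i : ZMod p) == 0) = true) ↔ i = (-x).val := by
              rw [beq_iff_eq]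
              constructor
              · intro h
                have h4 : (i : ZMod p) = -x := by linear_combination h
                rw [← h4, ZMod.val_natCast, Nat.mod_eq_of_lt hi]
              · intro h
                rw [h, ZMod.natCast_zmod_val]
                ring
            by_cases hh : i = (-x).val
            · rw [if_pos hh, if_pos (this.2 hh)]
            · rw [if_neg hh, if_neg (fun h => hh (this.1 h))]
          rw [Finset.sum_congr rfl h3, Finset.sum_ite_eq', if_pos]
          rw [Finset.mem_range]
          exact ZMod.val_lt _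
      exact hcount l
    rw [← Nat.cast_sum, h2, hl]
    rw [mul_assoc, hu, inv_mul_cancel₀ hk, mul_one]

theorem solve {a : Ch (ZMod p) (ZMod p) →ₗ[ZMod p] ZMod p} (ha : Alt a) {k : ℕ}
    (hk : ((k + 1 : ℕ) : ZMod p) ≠ 0)
    (hI : ∀ l : List (ZMod p), l.length = k + 1 → a (op p (sh p) (k + 1) (single l 1)) = 0) :
    ∃ b : Ch (ZMod p) (ZMod p) →ₗ[ZMod p] ZMod p, Alt b ∧
      ∀ l : List (ZMod p), l.length = k + 1 → b (op p (sh p) k (single l 1)) = a (single l 1) := by
  by_cases h : k % 2 = 0
  · have e1 : (op p (sh p) k : Ch (ZMod p) (ZMod p) →ₗ[ZMod p] _) = DD (sh p) := by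
      unfold op; rw [if_pos h]
    have e2 : (op p (sh p) (k + 1) : Ch (ZMod p) (ZMod p) →ₗ[ZMod p] _) = NN p (sh p) := by
      unfold op; rw [if_neg (by omega)]
    rw [e2] at hI
    rw [e1]
    exact solve_even p ha hk hI
  · have e1 : (op p (sh p) k : Ch (ZMod p) (ZMod p) →ₗ[ZMod p] _) = NN p (sh p) := by
      unfold op; rw [if_neg h]
    have e2 : (op p (sh p) (k + 1) : Ch (ZMod p) (ZMod p) →ₗ[ZMod p] _) = DD (sh p) := by
      unfold op; rw [if_pos (by omega)]
    rw [e2] at hI
    rw [e1]
    exact solve_odd p ha hk hI

/-- the dual cochains -/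
theorem exists_cochain (L : ℕ → Ch (ZMod p) (ZMod p))
    (hL : ∀ k, L k ∈ Sp (ZMod p) (fun l => l.length = k + 1))
    (h0 : bd (L 0) = single [] 1) (hs : ∀ k, bd (L (k + 1)) = op p (sh p) k (L k)) :
    ∀ k, k + 1 ≤ p → ∃ a : Ch (ZMod p) (ZMod p) →ₗ[ZMod p] ZMod p, Alt a ∧
      (∀ c, a (bd c) = 0) ∧
      (∀ l : List (ZMod p), l.length = k + 1 → a (op p (sh p) (k + 1) (single l 1)) = 0) ∧
      a (L k) = 1 := by
  intro k
  induction k with
  | zero =>
    intro _
    let e : Ch (ZMod p) (ZMod p) →ₗ[ZMod p] ZMod p := fn p (fun l => if l = [] then 1 else 0)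
    refine ⟨e.comp bd, ?_, ?_, ?_, ?_⟩
    · apply Alt.bd
      intro l1 x y l2
      simp only [e, fn_one]
      constructor <;> simp
    · intro c
      rw [LinearMap.comp_apply, bd_bd, map_zero]
    · intro l hl
      obtain ⟨x, rfl⟩ := List.length_eq_one_iff.1 hl
      unfold op
      rw [if_neg (by norm_num), LinearMap.comp_apply, bd_NN, bd_one, NN_apply, map_sum]
      have : ∀ i ∈ Finset.range p, e (mp ((sh p)^[i]) (bdL [x] : Ch (ZMod p) (ZMod p))) = 1 := by
        intro i _
        simp [bdL, mp_single, e, fn_one]
      rw [Finset.sum_congr rfl this]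
      simp
    · rw [LinearMap.comp_apply, h0]
      simp [e, fn_one]
  | succ k ih =>
    intro hk
    obtain ⟨a, ha, hbd, hI, h1⟩ := ih (by omega)
    have hk' : ((k + 1 : ℕ) : ZMod p) ≠ 0 := by
      intro h
      rw [ZMod.natCast_eq_zero_iff] at h
      have := Nat.le_of_dvd (by omega) h
      omega
    obtain ⟨b, hb, hab⟩ := solve p ha hk' hI
    refine ⟨b.comp bd, hb.bd, ?_, ?_, ?_⟩
    · intro c
      rw [LinearMap.comp_apply, bd_bd, map_zero]
    · intro l hl
      have hop : (op p (sh p) (k + 1 + 1) : Ch (ZMod p) (ZMod p) →ₗ[ZMod p] _) =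
          op p (sh p) k := by
        unfold op
        congr 1
        simp only [eq_iff_iff]
        omega
      rw [hop, LinearMap.comp_apply, bd_op, bd_one]
      have h2 : b (op p (sh p) k (bdL l)) = a (bdL l) := by
        refine lin_eq (b.comp (op p (sh p) k)) a (P := fun l => l.length = k + 1) ?_ ?_
        · intro l hl
          exact hab l hl
        · refine S_mono ?_ (bdL_mem_S l)
          rintro l' ⟨h3, -⟩
          omega
      rw [h2, ← bd_one, hbd]
    · rw [LinearMap.comp_apply, hs]
      have h2 : b (op p (sh p) k (L k)) = a (L k) :=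
        lin_eq (b.comp (op p (sh p) k)) a (P := fun l => l.length = k + 1)
          (fun l hl => hab l hl) (hL k)
      rw [h2, h1]

end Zp

end Pool.Agent.R391.FS
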