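import Pool.Agent.R391.FS.PrimeCase

set_option autoImplicit false
set_option linter.unusedSectionVars false

/-! # Multiplicativity of the vector form, and the vector form for every number of children -/

namespace Pool.Agent.R391.FS

open Finset

theorem GG_congr {m : ℕ} {C C' : Type} [Fintype C] [Fintype C'] (e : C ≃ C') (h : GG m C) :
    GG m C' := by
  classical
  intro U _ K v
  obtain ⟨x, h1, h2, h3, h4, h5⟩ := h U K v
  have hc : Fintype.card C = Fintype.card C' := Fintype.card_congr e
  refine ⟨fun k c => x k (e.symm c), fun k c => h1 _ _, fun k => ?_, fun c j => ?_, ?_,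
    fun c => ?_⟩
  · rw [← h2 k]
    exact Equiv.sum_comp e.symm (x k)
  · rw [← hc]
    exact h3 _ _
  · rw [← hc]
    refine le_trans (card_le_card ?_) h4
    intro k hk
    rw [mem_filter] at hk ⊢
    refine ⟨hk.1, fun c => ?_⟩
    have := hk.2 (e c)
    simpa using this
  · rw [← hc]
    exact h5 _

theorem GG_mul {m : ℕ} {A B : Type} [Fintype A] [Fintype B] [Nonempty A] [Nonempty B]
    (hA : GG m A) (hB : GG m B) : GG m (A × B) := by
  classical
  intro U _ K v
  obtain ⟨x, x1, x2, x3, x4, x5⟩ := hA U K v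
  choose y y1 y2 y3 y4 y5 using fun c : A =>
    hB U (K.filter (fun k => x k c = 1)) (fun k j => x k c * v k j)
  have ha : 1 ≤ Fintype.card A := Fintype.card_pos
  have hb : 1 ≤ Fintype.card B := Fintype.card_pos
  have ha' : (0 : ℝ) < Fintype.card A := by exact_mod_cast ha
  have hb' : (0 : ℝ) < Fintype.card B := by exact_mod_cast hb
  obtain ⟨a, haa⟩ : ∃ a, Fintype.card A = a + 1 := ⟨Fintype.card A - 1, by omega⟩
  obtain ⟨b, hbb⟩ : ∃ b, Fintype.card B = b + 1 := ⟨Fintype.card B - 1, by omega⟩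
  have hmul : m * ((a + 1) * (b + 1) - 1) = m * a + (a + 1) * (m * b) := by
    have : (a + 1) * (b + 1) - 1 = a + (a + 1) * b := by
      have : (a + 1) * (b + 1) = a + (a + 1) * b + 1 := by ring
      omega
    rw [this]
    ring
  refine ⟨fun k q => x k q.1 * y q.1 k q.2, fun k q => mul_nonneg (x1 _ _) (y1 _ _ _),
    fun k => ?_, fun q j => ?_, ?_, fun q => ?_⟩
  · rw [Fintype.sum_prod_type]
    simp only
    simp_rw [← mul_sum, y2, mul_one, x2]
  · have h1 := y3 q.1 q.2 j
    rw [x3] at h1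
    rw [Fintype.card_prod]
    push_cast
    calc ∑ k, x k q.1 * y q.1 k q.2 * v k j = ∑ k, y q.1 k q.2 * (x k q.1 * v k j) := by
          apply sum_congr rfl
          intro k _
          ring
      _ = _ := by
          rw [h1]
          field_simp
  · have hsub : K.filter (fun k => ∀ q : A × B, x k q.1 * y q.1 k q.2 ≠ 1) ⊆
        K.filter (fun k => ∀ c, x k c ≠ 1) ∪ univ.biUnion (fun c : A =>
          (K.filter (fun k => x k c = 1)).filter (fun k => ∀ d, y c k d ≠ 1)) := by
      intro k hk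
      rw [mem_filter] at hk
      rw [mem_union]
      by_cases h : ∀ c, x k c ≠ 1
      · left
        exact mem_filter.2 ⟨hk.1, h⟩
      · right
        push Not at h
        obtain ⟨c, hc⟩ := h
        rw [mem_biUnion]
        refine ⟨c, mem_univ _, mem_filter.2 ⟨mem_filter.2 ⟨hk.1, hc⟩, fun d hd => ?_⟩⟩
        exact hk.2 (c, d) (by simp [hc, hd])
    refine (card_le_card hsub).trans ((card_union_le _ _).trans ?_)
    have h1 : (univ.biUnion (fun c : A =>
        (K.filter (fun k => x k c = 1)).filter (fun k => ∀ d, y c k d ≠ 1))).card ≤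
          ∑ _c : A, m * (Fintype.card B - 1) :=
      card_biUnion_le.trans (sum_le_sum fun c _ => y4 c)
    rw [sum_const, card_univ, smul_eq_mul] at h1
    rw [Fintype.card_prod, haa, hbb, hmul]
    rw [haa] at x4
    rw [haa, hbb] at h1
    simp only [Nat.add_sub_cancel] at x4 h1
    omega
  · have hsub : (K.filter (fun k => x k q.1 = 1)).filter (fun k => y q.1 k q.2 = 1) ⊆
        K.filter (fun k => x k q.1 * y q.1 k q.2 = 1) := by
      intro k hk
      rw [mem_filter, mem_filter] at hk
      rw [mem_filter]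
      exact ⟨hk.1.1, by rw [hk.1.2, hk.2, mul_one]⟩
    have h1 : (((K.filter (fun k => x k q.1 = 1)).filter (fun k => y q.1 k q.2 = 1)).card : ℤ) ≤
        ((K.filter (fun k => x k q.1 * y q.1 k q.2 = 1)).card : ℤ) := by
      exact_mod_cast card_le_card hsub
    refine le_trans ?_ (le_trans (y5 q.1 q.2) h1)
    have h2 := x5 q.1
    rw [Fintype.card_prod]
    rw [haa, hbb, hmul]
    rw [haa] at h2
    simp only [Nat.add_sub_cancel] at h2 ⊢
    have hA0 : ((a + 1 : ℕ) : ℤ) ≠ 0 := by exact_mod_cast (Nat.succ_ne_zero a)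
    have hA1 : (0 : ℤ) ≤ ((a + 1 : ℕ) : ℤ) := by positivity
    have hB1 : (0 : ℤ) ≤ ((b + 1 : ℕ) : ℤ) := by positivity
    have h3 : ((K.card : ℤ) - ((m * a + (a + 1) * (m * b) : ℕ) : ℤ)) / (((a + 1) * (b + 1) : ℕ) : ℤ)
        = (((K.card : ℤ) - ((m * a : ℕ) : ℤ)) / ((a + 1 : ℕ) : ℤ) - ((m * b : ℕ) : ℤ)) /
          ((b + 1 : ℕ) : ℤ) := by
      have h4 : (K.card : ℤ) - ((m * a + (a + 1) * (m * b) : ℕ) : ℤ) =
          ((K.card : ℤ) - ((m * a : ℕ) : ℤ)) + ((a + 1 : ℕ) : ℤ) * (-((m * b : ℕ) : ℤ)) := by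
        push_cast
        ring
      rw [h4, Nat.cast_mul (a + 1) (b + 1), ← Int.ediv_ediv_of_nonneg hA1,
        Int.add_mul_ediv_left _ _ hA0]
      rfl
    rw [h3]
    apply Int.ediv_le_ediv (by exact_mod_cast Nat.succ_pos b)
    linarith

theorem GG_one (m : ℕ) : GG m (Fin 1) := by
  classical
  intro U _ K v
  refine ⟨fun _ _ => 1, fun _ _ => zero_le_one, fun k => by simp, fun c j => by simp, ?_,
    fun c => ?_⟩
  · simp
  · simp

/-- **The vector form** for every number of children. -/
theorem GG_all (m r : ℕ) (hr : 0 < r) : GG m (Fin r) := by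
  revert hr
  induction r using Nat.recOnMul with
  | zero => intro h; exact absurd h (lt_irrefl 0)
  | one => intro _; exact GG_one m
  | prime p hp =>
    intro _
    have : Fact p.Prime := ⟨hp⟩
    have e : ZMod p ≃ Fin p := Fintype.equivFinOfCardEq (ZMod.card p)
    exact GG_congr e (GG_prime m p)
  | mul a b iha ihb =>
    intro h
    have ha : 0 < a := Nat.pos_of_mul_pos_right h
    have hb : 0 < b := Nat.pos_of_mul_pos_left h
    have : Nonempty (Fin a) := ⟨⟨0, ha⟩⟩
    have : Nonempty (Fin b) := ⟨⟨0, hb⟩⟩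
    exact GG_congr finProdFinEquiv (GG_mul (iha ha) (ihb hb))

end Pool.Agent.R391.FS
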