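import Pool.Agent.R391.FS.Cochain

set_option autoImplicit false
set_option linter.unusedSectionVars false

/-! # A covering theorem with a cyclic symmetry of prime order -/

namespace Pool.Agent.R391.FS

open Finsupp Filter Topology
open Pool.Agent.Helper325.BorsukUlam (bary Good bary_mem bary_dist frac_mono)

section Mesh

variable {R : Type} [CommRing R] {V : Type} [NormedAddCommGroup V] [NormedSpace ℝ V]

theorem sub_good (n : ℕ) : ∀ (D : ℝ) (_ : 0 ≤ D) (C : Set V) (_ : Convex ℝ C) (l : List V),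
    Good n D C l → sub n (single l (1 : R)) ∈ Sp R (Good n (n / (n + 1) * D) C) := by
  induction n with
  | zero =>
    intro D hD C hC l hl
    have : l = [] := List.length_eq_zero_iff.mp hl.1
    subst this
    simp only [sub, LinearMap.id_coe, id_eq]
    exact single_mem_S ⟨rfl, by simp, by simp⟩ 1
  | succ n ih =>
    intro D hD C hC l hl
    obtain ⟨h1, h2, h3⟩ := hl
    have hne : l ≠ [] := by
      intro h; rw [h] at h1; simp at h1
    rw [sub_succ_single, one_smul]
    have hbC := bary_mem hC hne h2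
    set C' : Set V := C ∩ Metric.closedBall (bary l) (n / (n + 1) * D) with hC'
    have hC'c : Convex ℝ C' := hC.inter (convex_closedBall _ _)
    have hbd : (bdL l : Ch R V) ∈ Sp R (Good n D C') := by
      refine S_mono ?_ (bdL_mem_S l)
      rintro l' ⟨hlen, hsub⟩
      refine ⟨by omega, fun u hu => ⟨h2 u (hsub hu), ?_⟩, fun u hu v hv => h3 u (hsub hu) v (hsub hv)⟩
      rw [Metric.mem_closedBall, dist_eq_norm]
      exact bary_dist h1 h3 (hsub hu)
    have hsub : sub n (bdL l : Ch R V) ∈ Sp R (Good n (n / (n + 1) * D) C') :=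
      lin_mem (sub n) (fun l' hl' => ih D hD C' hC'c l' hl') hbd
    refine cone_mem_S (bary l) ?_ hsub
    rintro l' ⟨k1, k2, k3⟩
    have hmono : (n : ℝ) / (n + 1) * D ≤ ((n + 1 : ℕ) : ℝ) / ((n + 1 : ℕ) + 1) * D :=
      mul_le_mul_of_nonneg_right (frac_mono n) hD
    have hnn : 0 ≤ (n : ℝ) / (n + 1) * D := by positivity
    refine ⟨by simp [k1], ?_, ?_⟩
    · intro u hu
      rcases List.mem_cons.mp hu with rfl | hu
      · exact hbC
      · exact (k2 u hu).1
    · intro u hu v hv
      rcases List.mem_cons.mp hu with hu' | hu'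
      · rcases List.mem_cons.mp hv with hv' | hv'
        · rw [hu', hv', sub_self, norm_zero]
          exact hnn.trans hmono
        · have := (k2 v hv').2
          rw [Metric.mem_closedBall, dist_eq_norm] at this
          rw [hu', norm_sub_rev]
          exact this.trans hmono
      · rcases List.mem_cons.mp hv with hv' | hv'
        · have := (k2 u hu').2
          rw [Metric.mem_closedBall, dist_eq_norm] at this
          rw [hv']
          exact this.trans hmono
        · exact (k3 u hu' v hv').trans hmono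

theorem sub_iter_good (n r : ℕ) (D : ℝ)
    (hD : 0 ≤ D) (CC : Set (Set V)) (hC : ∀ C ∈ CC, Convex ℝ C) (c : Ch R V)
    (hc : c ∈ Sp R (fun l => ∃ C ∈ CC, Good n D C l)) :
    (sub n)^[r] c ∈ Sp R (fun l => ∃ C ∈ CC, Good n (((n : ℝ) / (n + 1)) ^ r * D) C l) := by
  induction r generalizing D c with
  | zero => simpa using hc
  | succ r ih =>
    rw [Function.iterate_succ_apply]
    have h1 : sub n c ∈ Sp R (fun l => ∃ C ∈ CC, Good n (n / (n + 1) * D) C l) :=
      lin_mem (sub n) (fun l hl => by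
        obtain ⟨C, hCC, hl⟩ := hl
        exact S_mono (fun l hl => ⟨C, hCC, hl⟩) (sub_good n D hD C (hC C hCC) l hl)) hc
    have := ih (n / (n + 1) * D) (by positivity) _ h1
    rw [pow_succ, mul_assoc]
    exact this

end Mesh

section Main

variable {p : ℕ} [hp : Fact p.Prime] {V : Type} [NormedAddCommGroup V] [NormedSpace ℝ V]

theorem iter_mod {X : Type} {s : X → X} (hs : ∀ v, s^[p] v = v) {n m : ℕ}
    (h : (n : ZMod p) = (m : ZMod p)) (v : X) : s^[n] v = s^[m] v := by
  have h1 : ∀ n : ℕ, s^[n] v = s^[n % p] v := by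
    intro n
    have : Function.IsPeriodicPt s p v := hs v
    rw [this.iterate_mod_apply]
  rw [h1 n, h1 m]
  have h2 : n % p = m % p := (ZMod.natCast_eq_natCast_iff' n m p).1 h
  rw [h2]

/-- power of `s` with exponent in `ZMod p` -/
def pw {X : Type} (s : X → X) (a : ZMod p) (v : X) : X := s^[a.val] v

theorem s_pw {X : Type} {s : X → X} (hs : ∀ v, s^[p] v = v) (a : ZMod p) (v : X) :
    s (pw s a v) = pw s (a + 1) v := by
  unfold pw
  rw [← Function.iterate_succ_apply' s]
  apply iter_mod hs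
  push_cast
  rw [ZMod.natCast_zmod_val, ZMod.natCast_zmod_val]

/-- a cell of the join -/
def Cv (s : V →L[ℝ] V) (w : ℕ → V) (g : Fin p → ZMod p) : Set V :=
  (fun t : Fin p → ℝ => ∑ i, t i • pw s (g i) (w i)) '' (stdSimplex ℝ (Fin p))

theorem Cv_convex (s : V →L[ℝ] V) (w : ℕ → V) (g : Fin p → ZMod p) : Convex ℝ (Cv s w g) := by
  let T : (Fin p → ℝ) →ₗ[ℝ] V :=
    { toFun := fun t => ∑ i, t i • pw s (g i) (w i)
      map_add' := fun a b => by
        simp only [Pi.add_apply, add_smul, Finset.sum_add_distrib]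
      map_smul' := fun a b => by
        simp only [Pi.smul_apply, smul_eq_mul, mul_smul, Finset.smul_sum, RingHom.id_apply] }
  exact (convex_stdSimplex ℝ (Fin p)).linear_image T

theorem Cv_compact (s : V →L[ℝ] V) (w : ℕ → V) (g : Fin p → ZMod p) : IsCompact (Cv s w g) := by
  apply (isCompact_stdSimplex ℝ (Fin p)).image
  fun_prop

theorem Cv_mem (s : V →L[ℝ] V) (w : ℕ → V) (g : Fin p → ZMod p) (i : Fin p) :
    pw s (g i) (w i) ∈ Cv s w g := by
  refine ⟨Pi.single i 1, single_mem_stdSimplex ℝ i, ?_⟩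
  simp only
  rw [Finset.sum_eq_single i]
  · simp
  · intro j _ hj
    simp [hj]
  · simp

theorem Cv_map (s : V →L[ℝ] V) (hs : ∀ v, s^[p] v = v) (w : ℕ → V) (g : Fin p → ZMod p) {v : V}
    (hv : v ∈ Cv s w g) : s v ∈ Cv s w (fun i => g i + 1) := by
  obtain ⟨t, ht, rfl⟩ := hv
  refine ⟨t, ht, ?_⟩
  simp only [map_sum, map_smul]
  apply Finset.sum_congr rfl
  intro i _
  rw [s_pw hs]

/-- the compact set of all cells -/
def KK (s : V →L[ℝ] V) (w : ℕ → V) : Set V := ⋃ g : Fin p → ZMod p, Cv s w g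

theorem KK_compact (s : V →L[ℝ] V) (w : ℕ → V) : IsCompact (KK (p := p) s w) := by
  have : NeZero p := ⟨hp.out.ne_zero⟩
  exact isCompact_iUnion fun g => Cv_compact s w g

theorem KK_map (s : V →L[ℝ] V) (hs : ∀ v, s^[p] v = v) (w : ℕ → V) {v : V}
    (hv : v ∈ KK (p := p) s w) : s v ∈ KK (p := p) s w := by
  obtain ⟨g, hg⟩ := Set.mem_iUnion.1 hv
  exact Set.mem_iUnion.2 ⟨_, Cv_map s hs w g hg⟩

theorem z_support (s : V →L[ℝ] V) (hs : ∀ v, s^[p] v = v) (w : ℕ → V) (k : ℕ) (hk : k ≤ p) :
    (z p s w k : Ch (ZMod p) V) ∈ Sp (ZMod p) (fun l => l.length = k ∧ ∃ g : Fin p → ZMod p,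
      ∀ u ∈ l, ∃ i : Fin p, (i : ℕ) < k ∧ u = pw s (g i) (w i)) := by
  induction k with
  | zero =>
    rw [z]
    exact single_mem_S ⟨rfl, fun _ => 0, by simp⟩ 1
  | succ k ih =>
    have ihk := ih (by omega)
    rw [z]
    apply op_mem_S
    · rintro l ⟨hl, g, hg⟩
      refine ⟨by rw [List.length_map, hl], fun i => g i + 1, ?_⟩
      intro u hu
      obtain ⟨v, hv, rfl⟩ := List.mem_map.1 hu
      obtain ⟨i, hi, rfl⟩ := hg v hv
      exact ⟨i, hi, s_pw hs _ _⟩
    · refine cone_mem_S _ ?_ ihk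
      rintro l ⟨hl, g, hg⟩
      refine ⟨by simp [hl], fun i => if (i : ℕ) = k then 0 else g i, ?_⟩
      intro u hu
      rcases List.mem_cons.1 hu with rfl | hu
      · refine ⟨⟨k, by omega⟩, by simp, ?_⟩
        simp [pw]
      · obtain ⟨i, hi, rfl⟩ := hg u hu
        refine ⟨i, by omega, ?_⟩
        show _ = pw s (if (i : ℕ) = k then 0 else g i) (w i)
        rw [if_neg (by omega)]

theorem h_support (s : V →L[ℝ] V) (hs : ∀ v, s^[p] v = v) (w : ℕ → V) (k : ℕ) (hk : k + 1 ≤ p) :
    (h p s w k : Ch (ZMod p) V) ∈ Sp (ZMod p) (fun l => l.length = k + 1 ∧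
      ∃ g : Fin p → ZMod p, ∀ u ∈ l, ∃ i : Fin p, u = pw s (g i) (w i)) := by
  have ihk := z_support s hs w k (by omega)
  rw [h]
  refine cone_mem_S _ ?_ ihk
  rintro l ⟨hl, g, hg⟩
  refine ⟨by simp [hl], fun i => if (i : ℕ) = k then 0 else g i, ?_⟩
  intro u hu
  rcases List.mem_cons.1 hu with rfl | hu
  · refine ⟨⟨k, by omega⟩, ?_⟩
    simp [pw]
  · obtain ⟨i, hi, rfl⟩ := hg u hu
    refine ⟨i, ?_⟩
    show _ = pw s (if (i : ℕ) = k then 0 else g i) (w i)
    rw [if_neg (by omega)]

/-- all cells -/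
def CC (p : ℕ) [Fact p.Prime] (s : V →L[ℝ] V) (w : ℕ → V) : Set (Set V) :=
  Set.range (fun g : Fin p → ZMod p => Cv s w g)

theorem exists_D (s : V →L[ℝ] V) (w : ℕ → V) :
    ∃ D : ℝ, 0 ≤ D ∧ ∀ u ∈ KK (p := p) s w, ∀ v ∈ KK (p := p) s w, ‖u - v‖ ≤ D := by
  obtain ⟨M, hM⟩ := (KK_compact (p := p) s w).isBounded.exists_norm_le
  refine ⟨2 * |M|, by positivity, fun u hu v hv => ?_⟩
  have h1 := hM u hu
  have h2 := hM v hv
  have h3 := norm_sub_le u v
  have h4 := le_abs_self M
  linarith

theorem H_support (s : V →L[ℝ] V) (hs : ∀ v, s^[p] v = v) (w : ℕ → V) {D : ℝ} (hD : 0 ≤ D)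
    (hDD : ∀ u ∈ KK (p := p) s w, ∀ v ∈ KK (p := p) s w, ‖u - v‖ ≤ D) (r k : ℕ)
    (hk : k + 1 ≤ p) :
    (H p s w r k : Ch (ZMod p) V) ∈ Sp (ZMod p) (fun l => ∃ C ∈ CC p s w,
      Good (k + 1) ((((k + 1 : ℕ) : ℝ) / ((k + 1 : ℕ) + 1)) ^ r * D) C l) := by
  apply sub_iter_good _ _ _ hD
  · rintro C ⟨g, rfl⟩
    exact Cv_convex s w g
  · refine S_mono ?_ (h_support s hs w k hk)
    rintro l ⟨hl, g, hg⟩
    have hmem : ∀ u ∈ l, u ∈ Cv s w g := by
      intro u hu
      obtain ⟨i, rfl⟩ := hg u hu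
      exact Cv_mem s w g i
    refine ⟨Cv s w g, ⟨g, rfl⟩, hl, hmem, ?_⟩
    intro u hu v hv
    exact hDD u (Set.mem_iUnion.2 ⟨g, hmem u hu⟩) v (Set.mem_iUnion.2 ⟨g, hmem v hv⟩)

theorem mp_lam_op (s : V → V) (lam : V → ZMod p) (K : Set V) (hK : ∀ v ∈ K, s v ∈ K)
    (hlam : ∀ v ∈ K, lam (s v) = lam v + 1) (k : ℕ) {c : Ch (ZMod p) V}
    (hc : c ∈ Sp (ZMod p) (fun l : List V => ∀ v ∈ l, v ∈ K)) :
    mp lam (op p s k c) = op p (sh p) k (mp lam c) := by
  have hiter : ∀ (i : ℕ), ∀ v ∈ K, s^[i] v ∈ K ∧ lam (s^[i] v) = (sh p)^[i] (lam v) := by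
    intro i
    induction i with
    | zero => intro v hv; exact ⟨hv, rfl⟩
    | succ i ih =>
      intro v hv
      obtain ⟨h1, h2⟩ := ih v hv
      rw [Function.iterate_succ_apply', Function.iterate_succ_apply']
      refine ⟨hK _ h1, ?_⟩
      rw [hlam _ h1, h2]
      rfl
  refine lin_eq ((mp lam).comp (op p s k)) ((op p (sh p) k).comp (mp lam)) ?_ hc
  intro l hl
  have hi : ∀ i : ℕ, (l.map (s^[i])).map lam = (l.map lam).map ((sh p)^[i]) := by
    intro i
    rw [List.map_map, List.map_map]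
    apply List.map_congr_left
    intro v hv
    exact (hiter i v (hl v hv)).2
  rw [LinearMap.comp_apply, LinearMap.comp_apply]
  unfold op
  split_ifs
  · rw [DD_apply, DD_apply, map_sub, mp_single, mp_single, mp_single, mp_single]
    have := hi 1
    simp only [Function.iterate_one] at this
    rw [this]
  · rw [NN_apply, NN_apply, map_sum]
    apply Finset.sum_congr rfl
    intro i _
    rw [mp_single, mp_single, mp_single, mp_single, hi]

/-- in every subdivision there is a cell with all labels -/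
theorem exists_full (s : V →L[ℝ] V) (hs : ∀ v, s^[p] v = v) (w : ℕ → V) {D : ℝ} (hD : 0 ≤ D)
    (hDD : ∀ u ∈ KK (p := p) s w, ∀ v ∈ KK (p := p) s w, ‖u - v‖ ≤ D)
    (lam : V → ZMod p) (hlam : ∀ v ∈ KK (p := p) s w, lam (s v) = lam v + 1) (r : ℕ) :
    ∃ l : List V, (∀ v ∈ l, v ∈ KK (p := p) s w) ∧
      (∀ u ∈ l, ∀ v ∈ l, ‖u - v‖ ≤ ((p : ℝ) / (p + 1)) ^ r * D) ∧ ∀ c, ∃ v ∈ l, lam v = c := by
  by_contra hcon
  push Not at hcon
  have hp1 : 1 ≤ p := hp.out.one_lt.le
  -- lists of all levels
  let L : ℕ → Ch (ZMod p) (ZMod p) := fun k => if k + 1 ≤ p then mp lam (H p s w r k) else 0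
  have hKsup : ∀ k, k + 1 ≤ p → (H p s w r k : Ch (ZMod p) V) ∈
      Sp (ZMod p) (fun l : List V => l.length = k + 1 ∧ ∀ v ∈ l, v ∈ KK (p := p) s w) := by
    intro k hk
    refine S_mono ?_ (H_support s hs w hD hDD r k hk)
    rintro l ⟨C, ⟨g, rfl⟩, h1, h2, h3⟩
    exact ⟨h1, fun v hv => Set.mem_iUnion.2 ⟨g, h2 v hv⟩⟩
  -- a version of `exists_cochain` for a finite range: extend the sequence
  obtain ⟨n, hn⟩ : ∃ n, p = n + 1 := ⟨p - 1, by omega⟩
  have key : ∀ k, k + 1 ≤ p → ∃ a : Ch (ZMod p) (ZMod p) →ₗ[ZMod p] ZMod p, Alt a ∧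
      (∀ c, a (bd c) = 0) ∧
      (∀ l : List (ZMod p), l.length = k + 1 → a (op p (sh p) (k + 1) (single l 1)) = 0) ∧
      a (mp lam (H p s w r k)) = 1 := by
    intro k
    induction k with
    | zero =>
      intro hk
      -- use the constant sequence argument at level 0
      let e : Ch (ZMod p) (ZMod p) →ₗ[ZMod p] ZMod p := fn p (fun l => if l = [] then 1 else 0)
      refine ⟨e.comp bd, ?_, ?_, ?_, ?_⟩
      · apply Alt.bd
        intro l1 x y l2
        simp only [e, fn_one]
        constructor <;> simp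
      · intro c
        rw [LinearMap.comp_apply, bd_bd, map_zero]
      · intro l hl
        obtain ⟨x, rfl⟩ := List.length_eq_one_iff.1 hl
        unfold op
        rw [if_neg (by norm_num), LinearMap.comp_apply, bd_NN, bd_one, NN_apply, map_sum]
        have : ∀ i ∈ Finset.range p, e (mp ((sh p)^[i]) (bdL [x] : Ch (ZMod p) (ZMod p))) = 1 := by
          intro i _
          simp [bdL, mp_single, e, fn_one]
        rw [Finset.sum_congr rfl this]
        simp
      · rw [LinearMap.comp_apply, ← mp_bd, bd_H_zero p s hs]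
        simp [e, fn_one, mp_single]
    | succ k ih =>
      intro hk
      obtain ⟨a, ha, hbd, hI, h1⟩ := ih (by omega)
      have hk' : ((k + 1 : ℕ) : ZMod p) ≠ 0 := by
        intro h
        rw [ZMod.natCast_eq_zero_iff] at h
        have := Nat.le_of_dvd (by omega) h
        omega
      obtain ⟨b, hb, hab⟩ := solve p ha hk' hI
      refine ⟨b.comp bd, hb.bd, ?_, ?_, ?_⟩
      · intro c
        rw [LinearMap.comp_apply, bd_bd, map_zero]
      · intro l hl
        have hop : (op p (sh p) (k + 1 + 1) : Ch (ZMod p) (ZMod p) →ₗ[ZMod p] _) =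
            op p (sh p) k := by
          unfold op
          congr 1
          simp only [eq_iff_iff]
          omega
        rw [hop, LinearMap.comp_apply, bd_op, bd_one]
        have h2 : b (op p (sh p) k (bdL l)) = a (bdL l) := by
          refine lin_eq (b.comp (op p (sh p) k)) a (P := fun l => l.length = k + 1) ?_ ?_
          · intro l hl
            exact hab l hl
          · refine S_mono ?_ (bdL_mem_S l)
            rintro l' ⟨h3, -⟩
            omega
        rw [h2, ← bd_one, hbd]
      · have hsup := hKsup k (by omega)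
        have hstep : bd (mp lam (H p s w r (k + 1)) : Ch (ZMod p) (ZMod p)) =
            op p (sh p) k (mp lam (H p s w r k)) := by
          rw [← mp_bd]
          have h5 := bd_H_succ (R := ZMod p) p (s : V →ₗ[ℝ] V) hs w r k
          have h6 : bd (H p s w r (k + 1) : Ch (ZMod p) V) = op p s k (H p s w r k) := h5
          rw [h6]
          exact mp_lam_op s lam (KK (p := p) s w) (fun v hv => KK_map s hs w hv) hlam k
            (S_mono (fun l hl => hl.2) hsup)
        rw [LinearMap.comp_apply, hstep]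
        have hL : (mp lam (H p s w r k) : Ch (ZMod p) (ZMod p)) ∈
            Sp (ZMod p) (fun l => l.length = k + 1) :=
          mp_mem_S lam (fun l hl => by rw [List.length_map]; exact hl.1) hsup
        have h2 : b (op p (sh p) k (mp lam (H p s w r k))) = a (mp lam (H p s w r k)) :=
          lin_eq (b.comp (op p (sh p) k)) a (P := fun l => l.length = k + 1)
            (fun l hl => hab l hl) hL
        rw [h2, h1]
  obtain ⟨a, ha, -, -, h1⟩ := key n (by omega)
  have hzero : a (mp lam (H p s w r n)) = 0 := by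
    have hsup := H_support s hs w hD hDD r n (by omega)
    refine lin_eq_zero (a.comp (mp lam)) ?_ hsup
    rintro l ⟨C, ⟨g, rfl⟩, hlen, hmem, hdist⟩
    rw [LinearMap.comp_apply, mp_single]
    apply ha.dup
    intro hnd
    have hnp : ((n + 1 : ℕ) : ℝ) = (p : ℝ) := by rw [hn]
    have h2 := hcon l (fun v hv => Set.mem_iUnion.2 ⟨g, hmem v hv⟩) (by
      intro u hu v hv
      have := hdist u hu v hv
      rw [hnp] at this
      exact this)
    obtain ⟨c, hc⟩ := h2
    -- a list of length `p` without duplicates in `ZMod p` contains everything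
    have : NeZero p := ⟨hp.out.ne_zero⟩
    have h3 : (l.map lam).toFinset = Finset.univ := by
      apply Finset.eq_univ_of_card
      rw [List.toFinset_card_of_nodup hnd, List.length_map, hlen, ZMod.card, hn]
    have h4 : c ∈ (l.map lam).toFinset := by rw [h3]; exact Finset.mem_univ c
    rw [List.mem_toFinset] at h4
    obtain ⟨v, hv, hvc⟩ := List.mem_map.1 h4
    exact hc v hv hvc
  rw [h1] at hzero
  exact one_ne_zero hzero

/-- labels on orbits -/
theorem exists_label (s : V → V) (hs : ∀ v, s^[p] v = v) (A : ZMod p → Set V)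
    (hcov : ∀ v, ∃ c, v ∈ A c) (hA : ∀ c v, v ∈ A c → s v ∈ A (c + 1)) :
    ∃ lam : V → ZMod p, (∀ v, s v ≠ v → lam (s v) = lam v + 1) ∧ ∀ v, s v ≠ v → v ∈ A (lam v) := by
  classical
  have hAi : ∀ (i : ℕ) c v, v ∈ A c → s^[i] v ∈ A (c + i) := by
    intro i
    induction i with
    | zero => intro c v hv; simpa using hv
    | succ i ih =>
      intro c v hv
      rw [Function.iterate_succ_apply']
      have := hA _ _ (ih c v hv)
      push_cast
      rw [← add_assoc]
      exact this
  let S : Setoid V :=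
    { r := fun v w => ∃ i : ℕ, s^[i] v = w
      iseqv := by
        refine ⟨fun v => ⟨0, rfl⟩, ?_, ?_⟩
        · rintro v w ⟨i, hi⟩
          -- `s^[i * (p - 1)] w = v`
          refine ⟨i * (p - 1), ?_⟩
          rw [← hi, ← Function.iterate_add_apply]
          have h1 : s^[i * (p - 1) + i] v = s^[0] v := by
            apply iter_mod hs
            have hp1 : 1 ≤ p := hp.out.one_lt.le
            have : i * (p - 1) + i = i * p := by
              obtain ⟨q, hq⟩ : ∃ q, p = q + 1 := ⟨p - 1, by omega⟩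
              have : p - 1 = q := by omega
              rw [this, hq]
              ring
            rw [this]
            simp
          rw [h1]
          rfl
        · rintro u v w ⟨i, hi⟩ ⟨j, hj⟩
          exact ⟨j + i, by rw [Function.iterate_add_apply, hi, hj]⟩ }
  let rep : V → V := fun v => (Quotient.mk S v).out
  have hrep : ∀ v, ∃ i : ℕ, s^[i] (rep v) = v := by
    intro v
    exact Quotient.exact (Quotient.out_eq (Quotient.mk S v))
  have hrep_s : ∀ v, rep (s v) = rep v := by
    intro v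
    have : Quotient.mk S (s v) = Quotient.mk S v := by
      apply Quotient.sound
      exact S.symm ⟨1, rfl⟩
    simp only [rep, this]
  choose ix hix using hrep
  choose lab hlab using hcov
  -- uniqueness of the exponent
  have huniq : ∀ u : V, s u ≠ u → ∀ i j : ℕ, s^[i] u = s^[j] u → (i : ZMod p) = (j : ZMod p) := by
    intro u hu
    have hmp : Function.minimalPeriod s u = p := by
      have h1 : Function.minimalPeriod s u ∣ p :=
        Function.IsPeriodicPt.minimalPeriod_dvd (hs u)
      rcases (Nat.dvd_prime hp.out).1 h1 with h2 | h2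
      · exfalso
        apply hu
        exact Function.minimalPeriod_eq_one_iff_isFixedPt.1 h2
      · exact h2
    intro i j hij
    wlog hle : i ≤ j generalizing i j
    · exact (this j i hij.symm (by omega)).symm
    obtain ⟨d, rfl⟩ : ∃ d, j = i + d := ⟨j - i, by omega⟩
    -- apply the inverse of `s^[i]`
    have h1 : s^[i * (p - 1)] (s^[i] u) = u := by
      rw [← Function.iterate_add_apply]
      have hp1 : 1 ≤ p := hp.out.one_lt.le
      have : i * (p - 1) + i = i * p := by
        obtain ⟨q, hq⟩ : ∃ q, p = q + 1 := ⟨p - 1, by omega⟩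
        have : p - 1 = q := by omega
        rw [this, hq]
        ring
      rw [this]
      have h2 : s^[i * p] u = s^[0] u := iter_mod hs (by simp) u
      rw [h2]
      rfl
    have h2 : s^[i * (p - 1)] (s^[i + d] u) = s^[d] u := by
      rw [Function.iterate_add_apply, ← Function.iterate_add_apply s (i * (p - 1)) i]
      have hp1 : 1 ≤ p := hp.out.one_lt.le
      have : i * (p - 1) + i = i * p := by
        obtain ⟨q, hq⟩ : ∃ q, p = q + 1 := ⟨p - 1, by omega⟩
        have : p - 1 = q := by omega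
        rw [this, hq]
        ring
      rw [this]
      have h2 : s^[i * p] (s^[d] u) = s^[0] (s^[d] u) := iter_mod hs (by simp) _
      rw [h2]
      rfl
    have h3 : s^[d] u = u := by rw [← h2, ← hij, h1]
    have h4 : p ∣ d := by
      rw [← hmp]
      exact Function.IsPeriodicPt.minimalPeriod_dvd h3
    obtain ⟨e, rfl⟩ := h4
    push_cast
    simp
  have hfix : ∀ v, s (rep v) = rep v → s v = v := by
    intro v hv
    have h1 : ∀ i : ℕ, s^[i] (rep v) = rep v := by
      intro i
      exact Function.iterate_fixed hv i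
    have h2 := hix v
    rw [h1] at h2
    rw [← h2]
    exact hv
  refine ⟨fun v => lab (rep v) + ix v, ?_, ?_⟩
  · intro v hv
    simp only
    rw [hrep_s]
    have h1 : s (rep v) ≠ rep v := fun h => hv (hfix v h)
    have h2 : s^[ix (s v)] (rep v) = s^[ix v + 1] (rep v) := by
      have h3 := hix (s v)
      rw [hrep_s] at h3
      rw [h3, Function.iterate_succ_apply', hix v]
    have h3 := huniq _ h1 _ _ h2
    rw [h3]
    push_cast
    ring
  · intro v _
    have h1 := hAi (ix v) _ _ (hlab (rep v))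
    rw [hix v] at h1
    exact h1

/-- **The covering theorem.** -/
theorem zp_cover (s : V →L[ℝ] V) (hs : ∀ v, s^[p] v = v) (w : ℕ → V) (A : ZMod p → Set V)
    (hcl : ∀ c, IsClosed (A c)) (hcov : ∀ v, ∃ c, v ∈ A c)
    (hA : ∀ c v, v ∈ A c → s v ∈ A (c + 1)) :
    ∃ (g : Fin p → ZMod p) (t : Fin p → ℝ), t ∈ stdSimplex ℝ (Fin p) ∧
      ∀ c, ∑ i, t i • pw s (g i) (w i) ∈ A c := by
  classical
  by_contra hcon
  push Not at hcon
  have hcon' : ∀ v ∈ KK (p := p) s w, ∃ c, v ∉ A c := by
    intro v hv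
    obtain ⟨g, t, ht, rfl⟩ := Set.mem_iUnion.1 hv
    exact hcon g t ht
  have : NeZero p := ⟨hp.out.ne_zero⟩
  have hnofix : ∀ v ∈ KK (p := p) s w, s v ≠ v := by
    intro v hv hfix
    obtain ⟨c, hc⟩ := hcon' v hv
    apply hc
    obtain ⟨c0, hc0⟩ := hcov v
    have h1 : ∀ i : ℕ, v ∈ A (c0 + i) := by
      intro i
      induction i with
      | zero => simpa using hc0
      | succ i ih =>
        have := hA _ _ ih
        rw [hfix] at this
        push_cast
        rw [← add_assoc]
        exact this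
    have h2 := h1 (c - c0).val
    rw [ZMod.natCast_zmod_val] at h2
    have h3 : c0 + (c - c0) = c := by ring
    rwa [h3] at h2
  obtain ⟨lam, hlam1, hlam2⟩ := exists_label s hs A hcov hA
  obtain ⟨D, hD, hDD⟩ := exists_D (p := p) s w
  have hfull := fun r => exists_full s hs w hD hDD lam
    (fun v hv => hlam1 v (hnofix v hv)) r
  choose l hl1 hl2 hl3 using hfull
  choose x hx1 hx2 using hl3
  have hxK : ∀ r c, x r c ∈ KK (p := p) s w := fun r c => hl1 r _ (hx1 r c)
  have hxA : ∀ r c, x r c ∈ A c := by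
    intro r c
    have := hlam2 (x r c) (hnofix _ (hxK r c))
    rwa [hx2] at this
  obtain ⟨v, hvK, φ, hφ, hlim⟩ := (KK_compact (p := p) s w).tendsto_subseq (fun r => hxK r 0)
  obtain ⟨c, hc⟩ := hcon' v hvK
  apply hc
  have hq : ((p : ℝ) / (p + 1)) < 1 := by
    rw [div_lt_one (by positivity)]
    linarith
  have hq0 : 0 ≤ ((p : ℝ) / (p + 1)) := by positivity
  have h0 : Tendsto (fun r => ((p : ℝ) / (p + 1)) ^ r * D) atTop (𝓝 0) := by
    have := (tendsto_pow_atTop_nhds_zero_of_lt_one hq0 hq).mul_const D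
    simpa using this
  have h1 : Tendsto (fun r => x (φ r) c - x (φ r) 0) atTop (𝓝 0) := by
    apply squeeze_zero_norm (a := fun r => ((p : ℝ) / (p + 1)) ^ (φ r) * D)
    · intro r
      exact hl2 (φ r) _ (hx1 _ _) _ (hx1 _ _)
    · exact h0.comp hφ.tendsto_atTop
  have h2 : Tendsto (fun r => x (φ r) c) atTop (𝓝 v) := by
    have := h1.add hlim
    simpa using this
  exact (hcl c).mem_of_tendsto h2 (Eventually.of_forall fun r => hxA (φ r) c)

end Main

end Pool.Agent.R391.FS
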