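import Pool.Agent.R391.FS.Cover

set_option autoImplicit false
set_option linter.unusedSectionVars false

/-! # Faces of polytopes and generic functionals -/

namespace Pool.Agent.R391.FS

open Finset Filter Topology

section LP

variable {I : Type} [Fintype I] [DecidableEq I] {F : Type} [AddCommGroup F] [Module ℝ F]
  [FiniteDimensional ℝ F]

/-- the polytope -/
def Pol (Λ : (I → ℝ) →ₗ[ℝ] F) (b : F) : Set (I → ℝ) := {x | (∀ i, 0 ≤ x i) ∧ Λ x = b}

open Classical in
/-- the support -/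
noncomputable def supp (x : I → ℝ) : Finset I := univ.filter (fun i => x i ≠ 0)

lemma mem_supp {x : I → ℝ} {i : I} : i ∈ supp x ↔ x i ≠ 0 := by simp [supp]

/-- vectors supported in `S` -/
def Es (S : Finset I) : Submodule ℝ (I → ℝ) where
  carrier := {d | ∀ i, i ∉ S → d i = 0}
  add_mem' := fun {a b} ha hb i hi => by simp [ha i hi, hb i hi]
  zero_mem' := fun i _ => rfl
  smul_mem' := fun c x hx i hi => by simp [hx i hi]

/-- the tangent space -/
def Tn (Λ : (I → ℝ) →ₗ[ℝ] F) (S : Finset I) : Submodule ℝ (I → ℝ) := LinearMap.ker Λ ⊓ Es S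

lemma mem_Tn {Λ : (I → ℝ) →ₗ[ℝ] F} {S : Finset I} {d : I → ℝ} :
    d ∈ Tn Λ S ↔ Λ d = 0 ∧ ∀ i, i ∉ S → d i = 0 := by
  unfold Tn
  rw [Submodule.mem_inf, LinearMap.mem_ker]
  rfl

/-- the pairing -/
def pr (w x : I → ℝ) : ℝ := ∑ i, w i * x i

lemma pr_add (w x y : I → ℝ) : pr w (x + y) = pr w x + pr w y := by
  simp [pr, mul_add, sum_add_distrib]

lemma pr_smul (w : I → ℝ) (c : ℝ) (x : I → ℝ) : pr w (c • x) = c * pr w x := by
  simp only [pr, Pi.smul_apply, smul_eq_mul, mul_sum]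
  apply sum_congr rfl
  intro i _
  ring

/-- `x` is a maximiser of `w` -/
def IsMx (Λ : (I → ℝ) →ₗ[ℝ] F) (b : F) (w x : I → ℝ) : Prop :=
  x ∈ Pol Λ b ∧ ∀ y ∈ Pol Λ b, pr w y ≤ pr w x

variable {Λ : (I → ℝ) →ₗ[ℝ] F} {b : F}

lemma exists_move {x d : I → ℝ} (hx : x ∈ Pol Λ b) (hd : d ∈ Tn Λ (supp x)) :
    ∃ ε : ℝ, 0 < ε ∧ x + ε • d ∈ Pol Λ b ∧ x + (-ε) • d ∈ Pol Λ b := by
  rw [mem_Tn] at hd
  have h1 : ∀ᶠ ε : ℝ in 𝓝[>] 0, ∀ i, ε * |d i| ≤ x i := by
    rw [eventually_all]
    intro i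
    by_cases hi : x i = 0
    · have : d i = 0 := hd.2 i (by rw [mem_supp]; exact fun h => h hi)
      rw [this, hi]
      simp
    · have hpos : 0 < x i := lt_of_le_of_ne (hx.1 i) (Ne.symm hi)
      have hc : Tendsto (fun ε : ℝ => ε * |d i|) (𝓝[>] 0) (𝓝 (0 * |d i|)) :=
        (tendsto_id.mono_left nhdsWithin_le_nhds).mul_const _
      rw [zero_mul] at hc
      exact (hc.eventually (gt_mem_nhds hpos)).mono fun ε h => le_of_lt h
  have h2 : ∀ᶠ ε : ℝ in 𝓝[>] 0, 0 < ε := eventually_mem_nhdsWithin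
  obtain ⟨ε, h3, h4⟩ := (h1.and h2).exists
  refine ⟨ε, h4, ⟨?_, ?_⟩, ⟨?_, ?_⟩⟩
  · intro i
    have := h3 i
    have h5 := neg_abs_le (d i)
    simp only [Pi.add_apply, Pi.smul_apply, smul_eq_mul]
    nlinarith
  · rw [map_add, map_smul, hd.1, smul_zero, add_zero]
    exact hx.2
  · intro i
    have := h3 i
    have h5 := le_abs_self (d i)
    simp only [Pi.add_apply, Pi.smul_apply, smul_eq_mul]
    nlinarith
  · rw [map_add, map_smul, hd.1, smul_zero, add_zero]
    exact hx.2

lemma mx_orth {w x d : I → ℝ} (hx : IsMx Λ b w x) (hd : d ∈ Tn Λ (supp x)) : pr w d = 0 := by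
  obtain ⟨ε, hε, h1, h2⟩ := exists_move hx.1 hd
  have h3 := hx.2 _ h1
  have h4 := hx.2 _ h2
  rw [pr_add, pr_smul] at h3 h4
  have h5 : pr w d ≤ 0 := by nlinarith
  have h6 : 0 ≤ pr w d := by nlinarith
  linarith

lemma mx_same {w x y : I → ℝ} (hx : IsMx Λ b w x) (hy : y ∈ Pol Λ b) (hs : supp y ⊆ supp x) :
    IsMx Λ b w y := by
  refine ⟨hy, ?_⟩
  have hd : y + (-1 : ℝ) • x ∈ Tn Λ (supp x) := by
    rw [mem_Tn]
    constructor
    · rw [map_add, map_smul, hy.2, hx.1.2]
      simp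
    · intro i hi
      have h1 : x i = 0 := by
        by_contra h
        exact hi (mem_supp.2 h)
      have h2 : y i = 0 := by
        by_contra h
        exact hi (hs (mem_supp.2 h))
      simp [h1, h2]
  have h1 := mx_orth hx hd
  rw [pr_add, pr_smul] at h1
  intro z hz
  have := hx.2 z hz
  linarith

/-- extension by zero -/
noncomputable def ext0 (S : Finset I) : (S → ℝ) →ₗ[ℝ] (I → ℝ) where
  toFun f := fun i => if h : i ∈ S then f ⟨i, h⟩ else 0
  map_add' f g := by
    funext i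
    by_cases h : i ∈ S <;> simp [h]
  map_smul' c f := by
    funext i
    by_cases h : i ∈ S <;> simp [h]

lemma card_le_dim (Λ : (I → ℝ) →ₗ[ℝ] F) (S : Finset I) :
    S.card ≤ Module.finrank ℝ F + Module.finrank ℝ (Tn Λ S) := by
  have h1 := LinearMap.finrank_range_add_finrank_ker (Λ.comp (ext0 S))
  rw [Module.finrank_fintype_fun_eq_card, Fintype.card_coe] at h1
  have h2 : Module.finrank ℝ (LinearMap.range (Λ.comp (ext0 S))) ≤ Module.finrank ℝ F :=
    Submodule.finrank_le _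
  let T : LinearMap.ker (Λ.comp (ext0 S)) →ₗ[ℝ] Tn Λ S :=
    { toFun := fun f => ⟨ext0 S f.1, by
        rw [mem_Tn]
        refine ⟨f.2, fun i hi => ?_⟩
        simp [ext0, hi]⟩
      map_add' := fun f g => by
        apply Subtype.ext
        exact map_add (ext0 S) f.1 g.1
      map_smul' := fun c f => by
        apply Subtype.ext
        exact map_smul (ext0 S) c f.1 }
  have hT : Function.Injective T := by
    intro f g h
    apply Subtype.ext
    funext i
    have h3 : (ext0 S f.1 : I → ℝ) i = (ext0 S g.1 : I → ℝ) i :=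
      congrArg (fun z : Tn Λ S => (z : I → ℝ) i) h
    simpa [ext0] using h3
  have h3 := LinearMap.finrank_le_finrank_of_injective hT
  omega

/-- a maximiser with small support -/
lemma exists_small (hc : IsCompact (Pol Λ b)) (hne : (Pol Λ b).Nonempty) (w : I → ℝ) :
    ∃ x, IsMx Λ b w x ∧ (supp x).card ≤ Module.finrank ℝ F := by
  classical
  have hcont : Continuous (fun x : I → ℝ => pr w x) := by
    unfold pr
    fun_prop
  obtain ⟨x0, hx0, hmax⟩ := hc.exists_isMaxOn hne hcont.continuousOn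
  have hex : ∃ n, ∃ x, IsMx Λ b w x ∧ (supp x).card = n :=
    ⟨_, x0, ⟨hx0, fun y hy => hmax hy⟩, rfl⟩
  obtain ⟨x, hx, hcard⟩ := Nat.find_spec hex
  have hmin : ∀ y, IsMx Λ b w y → (supp x).card ≤ (supp y).card := by
    intro y hy
    rw [hcard]
    exact Nat.find_min' hex ⟨y, hy, rfl⟩
  refine ⟨x, hx, ?_⟩
  have hbot : Tn Λ (supp x) = ⊥ := by
    rw [Submodule.eq_bot_iff]
    by_contra hcon
    push Not at hcon
    obtain ⟨d0, hd0, hne0⟩ := hcon
    -- a direction with a negative entry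
    obtain ⟨d, hd, i0, hi0⟩ : ∃ d ∈ Tn Λ (supp x), ∃ i, d i < 0 := by
      obtain ⟨i, hi⟩ : ∃ i, d0 i ≠ 0 := by
        by_contra h
        push Not at h
        exact hne0 (funext h)
      rcases lt_or_gt_of_ne hi with h | h
      · exact ⟨d0, hd0, i, h⟩
      · exact ⟨-d0, Submodule.neg_mem _ hd0, i, by simpa using h⟩
    have horth := mx_orth hx hd
    rw [mem_Tn] at hd
    obtain ⟨j, hj, hjmin⟩ := Finset.exists_min_image (univ.filter (fun i => d i < 0))
      (fun i => x i / (-d i)) ⟨i0, by simp [hi0]⟩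
    simp only [mem_filter, mem_univ, true_and] at hj hjmin
    set t : ℝ := x j / (-d j) with ht
    have ht0 : 0 ≤ t := div_nonneg (hx.1.1 j) (by linarith)
    have hx' : x + t • d ∈ Pol Λ b := by
      refine ⟨fun i => ?_, ?_⟩
      · simp only [Pi.add_apply, Pi.smul_apply, smul_eq_mul]
        rcases lt_or_ge (d i) 0 with h | h
        · have h1 := hjmin i h
          rw [le_div_iff₀ (by linarith)] at h1
          linarith
        · have := hx.1.1 i
          positivity
      · rw [map_add, map_smul, hd.1, smul_zero, add_zero]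
        exact hx.1.2
    have hmx : IsMx Λ b w (x + t • d) := by
      refine ⟨hx', fun y hy => ?_⟩
      rw [pr_add, pr_smul, horth, mul_zero, add_zero]
      exact hx.2 y hy
    have hjs : j ∈ supp x := by
      by_contra h
      have := hd.2 j h
      linarith
    have hlt : (supp (x + t • d)).card < (supp x).card := by
      apply card_lt_card
      rw [Finset.ssubset_iff_of_subset]
      · refine ⟨j, hjs, ?_⟩
        rw [mem_supp, not_not]
        simp only [Pi.add_apply, Pi.smul_apply, smul_eq_mul, ht]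
        have : d j ≠ 0 := hj.ne
        field_simp
        ring
      · intro i hi
        by_contra h
        rw [mem_supp] at hi
        apply hi
        have h1 : x i = 0 := by
          by_contra h2
          exact h (mem_supp.2 h2)
        simp [h1, hd.2 i h]
    have := hmin _ hmx
    omega
  have h1 := card_le_dim Λ (supp x)
  rw [hbot, finrank_bot] at h1
  simpa using h1

lemma isClosed_mx (x : I → ℝ) (hx : x ∈ Pol Λ b) : IsClosed {w : I → ℝ | IsMx Λ b w x} := by
  have : {w : I → ℝ | IsMx Λ b w x} = ⋂ y ∈ Pol Λ b, {w | pr w y ≤ pr w x} := by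
    ext w
    simp only [Set.mem_ofPred_eq, Set.mem_iInter]
    exact ⟨fun h y hy => h.2 y hy, fun h => ⟨hx, h⟩⟩
  rw [this]
  refine isClosed_biInter fun y _ => ?_
  apply isClosed_le
  · unfold pr
    fun_prop
  · unfold pr
    fun_prop

end LP

section Generic

variable {I : Type} [Fintype I] [DecidableEq I] {F : Type} [AddCommGroup F] [Module ℝ F]
  [FiniteDimensional ℝ F]

/-- the restriction of the functional `w` to the tangent space -/
def Rs (Λ : (I → ℝ) →ₗ[ℝ] F) (S : Finset I) : (I → ℝ) →ₗ[ℝ] Module.Dual ℝ (Tn Λ S) where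
  toFun w :=
    { toFun := fun d => pr w d.1
      map_add' := fun a b => pr_add w a.1 b.1
      map_smul' := fun c a => pr_smul w c a.1 }
  map_add' w w' := by
    ext d
    simp [pr, add_mul, sum_add_distrib]
  map_smul' c w := by
    ext d
    simp only [pr, Pi.smul_apply, smul_eq_mul, LinearMap.coe_mk, AddHom.coe_mk,
      LinearMap.smul_apply, RingHom.id_apply, mul_sum]
    apply sum_congr rfl
    intro i _
    ring

lemma Rs_surj (Λ : (I → ℝ) →ₗ[ℝ] F) (S : Finset I) : Function.Surjective (Rs Λ S) := by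
  intro f
  obtain ⟨g, hg⟩ := LinearMap.exists_extend f
  refine ⟨fun i => g (Pi.single i 1), ?_⟩
  ext d
  have h1 : (d : I → ℝ) = ∑ i, (d : I → ℝ) i • (Pi.single i (1 : ℝ) : I → ℝ) := by
    funext j
    simp [Finset.sum_apply, Pi.single_apply]
  have h2 : f d = g d := by
    rw [← hg]
    rfl
  have h3 : Rs Λ S (fun i => g (Pi.single i 1)) d = pr (fun i => g (Pi.single i 1)) (d : I → ℝ) :=
    rfl
  have h4 : g (d : I → ℝ) = ∑ i, (d : I → ℝ) i * g (Pi.single i (1 : ℝ)) := by
    conv_lhs => rw [h1]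
    rw [map_sum]
    simp_rw [map_smul, smul_eq_mul]
  rw [h2, h3, h4]
  unfold pr
  apply sum_congr rfl
  intro i _
  rw [mul_comm]

variable {p : ℕ} [hp : Fact p.Prime]

/-- the linear version of `pw` -/
def pwL (s : (I → ℝ) →ₗ[ℝ] (I → ℝ)) (a : ZMod p) : (I → ℝ) →ₗ[ℝ] (I → ℝ) := s ^ a.val

lemma pwL_apply (s : (I → ℝ) →ₗ[ℝ] (I → ℝ)) (a : ZMod p) (w : I → ℝ) :
    pwL s a w = pw s a w := by
  unfold pwL pw
  rw [Module.End.pow_apply]

lemma pwL_surj (s : (I → ℝ) →ₗ[ℝ] (I → ℝ)) (hs : ∀ v, s^[p] v = v) (a : ZMod p) :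
    Function.Surjective (pwL s a) := by
  intro w
  refine ⟨s^[p - a.val] w, ?_⟩
  rw [pwL_apply]
  unfold pw
  have : NeZero p := ⟨hp.out.ne_zero⟩
  have ha : a.val < p := ZMod.val_lt a
  rw [← Function.iterate_add_apply, show a.val + (p - a.val) = p by omega]
  exact hs w

lemma exists_generic_aux (Λ : (I → ℝ) →ₗ[ℝ] F) (s : (I → ℝ) →ₗ[ℝ] (I → ℝ))
    (hs : ∀ v, s^[p] v = v) : ∀ n, n ≤ p → ∃ w : Fin n → (I → ℝ), ∀ S : Finset I,
      p ≤ Module.finrank ℝ (Tn Λ S) → ∀ g : Fin n → ZMod p,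
        LinearIndependent ℝ (fun i => Rs Λ S (pw s (g i) (w i))) := by
  intro n
  induction n with
  | zero =>
    intro _
    refine ⟨fun i => i.elim0, fun S _ g => ?_⟩
    exact linearIndependent_empty_type
  | succ n ih =>
    intro hn
    obtain ⟨w, hw⟩ := ih (by omega)
    have : NeZero p := ⟨hp.out.ne_zero⟩
    let ι := {S : Finset I // p ≤ Module.finrank ℝ (Tn Λ S)} × (Fin (n + 1) → ZMod p)
    let B : ι → Submodule ℝ (I → ℝ) := fun q =>
      (Submodule.span ℝ (Set.range (fun i : Fin n =>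
        Rs Λ q.1.1 (pw s (q.2 i.castSucc) (w i))))).comap
          ((Rs Λ q.1.1).comp (pwL s (q.2 (Fin.last n))))
    have hB : ∀ q, B q ≠ ⊤ := by
      intro q htop
      have h1 : Submodule.span ℝ (Set.range (fun i : Fin n =>
          Rs Λ q.1.1 (pw s (q.2 i.castSucc) (w i)))) = ⊤ := by
        rw [Submodule.eq_top_iff']
        intro f
        obtain ⟨u, hu⟩ := Rs_surj Λ q.1.1 f
        obtain ⟨v, hv⟩ := pwL_surj s hs (q.2 (Fin.last n)) u
        have h2 : v ∈ B q := by rw [htop]; trivial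
        have h3 : (Rs Λ q.1.1).comp (pwL s (q.2 (Fin.last n))) v ∈ Submodule.span ℝ (Set.range
            (fun i : Fin n => Rs Λ q.1.1 (pw s (q.2 i.castSucc) (w i)))) := h2
        rw [LinearMap.comp_apply, hv, hu] at h3
        exact h3
      have h2 : Module.finrank ℝ (Submodule.span ℝ (Set.range (fun i : Fin n =>
          Rs Λ q.1.1 (pw s (q.2 i.castSucc) (w i))))) ≤ n := by
        have := finrank_range_le_card (R := ℝ) (fun i : Fin n =>
          Rs Λ q.1.1 (pw s (q.2 i.castSucc) (w i)))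
        rw [Fintype.card_fin] at this
        exact this
      rw [h1, finrank_top, Subspace.dual_finrank_eq] at h2
      have := q.1.2
      omega
    obtain ⟨x, hx⟩ : ∃ x, ∀ q, x ∉ B q := by
      by_contra hcon
      push Not at hcon
      have hcov : ⋃ q, (B q : Set (I → ℝ)) = Set.univ := by
        rw [Set.eq_univ_iff_forall]
        intro x
        obtain ⟨q, hq⟩ := hcon x
        exact Set.mem_iUnion.2 ⟨q, hq⟩
      obtain ⟨q, hq⟩ := Subspace.exists_eq_top_of_iUnion_eq_univ hcov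
      exact hB q hq
    refine ⟨Fin.snoc w x, fun S hS g => ?_⟩
    have h1 : (fun i => Rs Λ S (pw s (g i) ((Fin.snoc w x : Fin (n + 1) → (I → ℝ)) i))) =
        Fin.snoc (fun i : Fin n => Rs Λ S (pw s (g i.castSucc) (w i)))
          (Rs Λ S (pw s (g (Fin.last n)) x)) := by
      funext i
      refine Fin.lastCases ?_ (fun j => ?_) i
      · simp
      · simp
    rw [h1, linearIndependent_finSnoc]
    refine ⟨hw S hS _, ?_⟩
    have h2 := hx (⟨S, hS⟩, g)
    intro h3
    apply h2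
    have h4 : (Rs Λ S).comp (pwL s (g (Fin.last n))) x ∈ Submodule.span ℝ (Set.range
        (fun i : Fin n => Rs Λ S (pw s (g i.castSucc) (w i)))) := by
      rw [LinearMap.comp_apply, pwL_apply]
      exact h3
    exact h4

lemma exists_generic (Λ : (I → ℝ) →ₗ[ℝ] F) (s : (I → ℝ) →ₗ[ℝ] (I → ℝ))
    (hs : ∀ v, s^[p] v = v) : ∃ w : ℕ → (I → ℝ), ∀ S : Finset I,
      p ≤ Module.finrank ℝ (Tn Λ S) → ∀ g : Fin p → ZMod p,
        LinearIndependent ℝ (fun i : Fin p => Rs Λ S (pw s (g i) (w i))) := by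
  obtain ⟨w, hw⟩ := exists_generic_aux Λ s hs p le_rfl
  refine ⟨fun i => if h : i < p then w ⟨i, h⟩ else 0, fun S hS g => ?_⟩
  have := hw S hS g
  have h1 : (fun i : Fin p => Rs Λ S (pw s (g i)
      ((fun i : ℕ => if h : i < p then w ⟨i, h⟩ else 0) i))) =
      fun i => Rs Λ S (pw s (g i) (w i)) := by
    funext i
    simp [i.2]
  rw [h1]
  exact this

lemma finrank_lt {Λ : (I → ℝ) →ₗ[ℝ] F} {b : F} {s : (I → ℝ) →ₗ[ℝ] (I → ℝ)} {w : ℕ → (I → ℝ)}
    (hw : ∀ S : Finset I, p ≤ Module.finrank ℝ (Tn Λ S) → ∀ g : Fin p → ZMod p,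
        LinearIndependent ℝ (fun i : Fin p => Rs Λ S (pw s (g i) (w i))))
    {g : Fin p → ZMod p} {t : Fin p → ℝ} (ht : t ∈ stdSimplex ℝ (Fin p)) {x : I → ℝ}
    (hx : IsMx Λ b (∑ i, t i • pw s (g i) (w i)) x) :
    Module.finrank ℝ (Tn Λ (supp x)) < p := by
  by_contra hcon
  have h1 := hw (supp x) (by omega) g
  rw [Fintype.linearIndependent_iff] at h1
  have h2 : ∑ i, t i • Rs Λ (supp x) (pw s (g i) (w i)) = 0 := by
    have h3 : Rs Λ (supp x) (∑ i, t i • pw s (g i) (w i)) = 0 := by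
      ext d
      exact mx_orth hx d.2
    rw [map_sum] at h3
    simp_rw [map_smul] at h3
    exact h3
  have h3 := h1 t h2
  have h4 := ht.2
  simp [h3] at h4

end Generic

end Pool.Agent.R391.FS
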