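import Mathlib

set_option autoImplicit false
set_option linter.unusedSectionVars false

/-! # Splitting finitely many nonatomic measures in prescribed proportions -/

namespace Pool.Agent.R391.FS

open MeasureTheory Set Filter Topology

section lyap

variable {Ω : Type*} [MeasurableSpace Ω]

/-- every measurable set can be halved simultaneously -/
def Halv (S : Set (Measure Ω)) : Prop :=
  ∀ X : Set Ω, MeasurableSet X → ∃ H, H ⊆ X ∧ MeasurableSet H ∧ ∀ μ ∈ S, μ.real H = μ.real X / 2

/-- every measurable set has an increasing family of subsets of proportional measures -/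
def Fam (S : Set (Measure Ω)) : Prop :=
  ∀ X : Set Ω, MeasurableSet X → ∃ A : ℝ → Set Ω, (∀ t, MeasurableSet (A t)) ∧ Monotone A ∧
    A 0 = ∅ ∧ A 1 = X ∧ ∀ μ ∈ S, ∀ t ∈ Icc (0 : ℝ) 1, μ.real (A t) = t * μ.real X

/-- dyadic cells -/
def cell (H : Set Ω → Set Ω) (X : Set Ω) : ℕ → ℕ → Set Ω
  | 0, k => if k = 0 then X else ∅
  | n + 1, k => if k % 2 = 0 then H (cell H X n (k / 2))
      else cell H X n (k / 2) \ H (cell H X n (k / 2))

variable {H : Set Ω → Set Ω} {X : Set Ω}

lemma cell_meas (hH : ∀ Y, MeasurableSet (H Y)) (hX : MeasurableSet X) (n k : ℕ) :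
    MeasurableSet (cell H X n k) := by
  induction n generalizing k with
  | zero =>
    unfold cell
    split_ifs
    · exact hX
    · exact MeasurableSet.empty
  | succ n ih =>
    unfold cell
    split_ifs
    · exact hH _
    · exact (ih _).diff (hH _)

lemma cell_sub (hs : ∀ Y, H Y ⊆ Y) (n k : ℕ) : cell H X (n + 1) k ⊆ cell H X n (k / 2) := by
  rw [cell]
  split_ifs
  · exact hs _
  · exact sdiff_subset

lemma cell_subX (hs : ∀ Y, H Y ⊆ Y) (n k : ℕ) : cell H X n k ⊆ X := by
  induction n generalizing k with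
  | zero =>
    unfold cell
    split_ifs
    · exact subset_rfl
    · exact empty_subset _
  | succ n ih => exact (cell_sub hs n k).trans (ih _)

lemma cell_disj (hs : ∀ Y, H Y ⊆ Y) (n : ℕ) {i j : ℕ} (hij : i ≠ j) :
    Disjoint (cell H X n i) (cell H X n j) := by
  induction n generalizing i j with
  | zero =>
    unfold cell
    by_cases hi : i = 0
    · rw [if_neg (show ¬ j = 0 by omega)]
      exact disjoint_empty _
    · rw [if_neg hi]
      exact empty_disjoint _
  | succ n ih =>
    by_cases h : i / 2 = j / 2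
    · rw [cell, cell, h]
      by_cases hi : i % 2 = 0
      · rw [if_pos hi, if_neg (by omega)]
        exact disjoint_sdiff_right
      · rw [if_neg hi, if_pos (by omega)]
        exact disjoint_sdiff_left
    · exact (ih h).mono (cell_sub hs n i) (cell_sub hs n j)

lemma cell_union (hs : ∀ Y, H Y ⊆ Y) (n i : ℕ) :
    cell H X (n + 1) (2 * i) ∪ cell H X (n + 1) (2 * i + 1) = cell H X n i := by
  rw [cell, cell]
  rw [if_pos (by omega), if_neg (by omega)]
  have h1 : 2 * i / 2 = i := by omega
  have h2 : (2 * i + 1) / 2 = i := by omega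
  rw [h1, h2, union_sdiff_self]
  exact union_eq_self_of_subset_left (hs _)

/-- unions of initial segments of cells -/
def seg (H : Set Ω → Set Ω) (X : Set Ω) (n k : ℕ) : Set Ω := ⋃ i ∈ Finset.range k, cell H X n i

lemma seg_succ (n k : ℕ) : seg H X n (k + 1) = seg H X n k ∪ cell H X n k := by
  unfold seg
  rw [Finset.range_add_one, Finset.set_biUnion_insert, union_comm]

lemma seg_zero (n : ℕ) : seg H X n 0 = ∅ := by
  simp [seg]

lemma seg_meas (hH : ∀ Y, MeasurableSet (H Y)) (hX : MeasurableSet X) (n k : ℕ) :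
    MeasurableSet (seg H X n k) :=
  Finset.measurableSet_biUnion _ fun i _ => cell_meas hH hX n i

lemma seg_mono (n : ℕ) {k l : ℕ} (h : k ≤ l) : seg H X n k ⊆ seg H X n l := by
  unfold seg
  exact biUnion_subset_biUnion_left (fun i hi => Finset.mem_coe.2
    (Finset.range_subset_range.2 h (Finset.mem_coe.1 hi)))

lemma seg_subX (hs : ∀ Y, H Y ⊆ Y) (n k : ℕ) : seg H X n k ⊆ X := by
  unfold seg
  exact iUnion₂_subset fun i _ => cell_subX hs n i

lemma seg_double (hs : ∀ Y, H Y ⊆ Y) (n k : ℕ) : seg H X (n + 1) (2 * k) = seg H X n k := by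
  induction k with
  | zero => rw [mul_zero, seg_zero, seg_zero]
  | succ k ih =>
    rw [show 2 * (k + 1) = 2 * k + 1 + 1 by ring, seg_succ, seg_succ, ih, union_assoc,
      cell_union hs, seg_succ]

variable {μ : Measure Ω} [IsFiniteMeasure μ]

lemma cell_measure (hH : ∀ Y, MeasurableSet (H Y)) (hs : ∀ Y, H Y ⊆ Y)
    (hX : MeasurableSet X) (hhalf : ∀ Y, MeasurableSet Y → μ.real (H Y) = μ.real Y / 2)
    (n k : ℕ) (hk : k < 2 ^ n) : μ.real (cell H X n k) = μ.real X / 2 ^ n := by
  induction n generalizing k with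
  | zero =>
    have : k = 0 := by simpa using hk
    subst this
    simp [cell]
  | succ n ih =>
    have h1 : k / 2 < 2 ^ n := by
      rw [pow_succ] at hk
      omega
    have h2 := ih _ h1
    have h3 := hhalf _ (cell_meas hH hX n (k / 2))
    rw [cell]
    split_ifs
    · rw [h3, h2, pow_succ]
      ring
    · rw [measureReal_sdiff (hs _) (hH _), h3, h2, pow_succ]
      ring

lemma seg_measure (hH : ∀ Y, MeasurableSet (H Y)) (hs : ∀ Y, H Y ⊆ Y)
    (hX : MeasurableSet X) (hhalf : ∀ Y, MeasurableSet Y → μ.real (H Y) = μ.real Y / 2)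
    (n k : ℕ) (hk : k ≤ 2 ^ n) : μ.real (seg H X n k) = k * (μ.real X / 2 ^ n) := by
  induction k with
  | zero => simp [seg_zero]
  | succ k ih =>
    rw [seg_succ, measureReal_union _ (cell_meas hH hX n k), ih (by omega),
      cell_measure hH hs hX hhalf n k (by omega)]
    · push_cast
      ring
    · unfold seg
      rw [disjoint_iUnion₂_left]
      intro i hi
      exact cell_disj hs n (by have := Finset.mem_range.1 hi; omega)

/-- **Dyadic construction.** -/
theorem Fam_of_Halv {S : Set (Measure Ω)} (hS : ∀ μ ∈ S, IsFiniteMeasure μ) (h : Halv S) :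
    Fam S := by
  classical
  intro X hX
  choose G G1 G2 G3 using h
  set H : Set Ω → Set Ω := fun Y => if hY : MeasurableSet Y then G Y hY else ∅ with hHdef
  have hH : ∀ Y, MeasurableSet (H Y) := by
    intro Y
    simp only [hHdef]
    split_ifs with hY
    · exact G2 _ _
    · exact MeasurableSet.empty
  have hs : ∀ Y, H Y ⊆ Y := by
    intro Y
    simp only [hHdef]
    split_ifs with hY
    · exact G1 _ _
    · exact empty_subset _
  have hhalf : ∀ μ ∈ S, ∀ Y, MeasurableSet Y → μ.real (H Y) = μ.real Y / 2 := by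
    intro μ hμ Y hY
    simp only [hHdef, dif_pos hY]
    exact G3 _ _ μ hμ
  clear_value H
  refine ⟨fun t => ⋃ n, seg H X n ⌊t * 2 ^ n⌋₊, fun t => ?_, fun s t hst => ?_, ?_, ?_, ?_⟩
  · exact MeasurableSet.iUnion fun n => seg_meas hH hX n _
  · apply iUnion_mono
    intro n
    apply seg_mono
    apply Nat.floor_le_floor
    exact mul_le_mul_of_nonneg_right hst (by positivity)
  · simp only [zero_mul, Nat.floor_zero, seg_zero, iUnion_empty]
  · apply subset_antisymm
    · exact iUnion_subset fun n => seg_subX hs n _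
    · refine subset_trans ?_ (subset_iUnion _ 0)
      simp [cell, seg]
  · intro μ hμ t ht
    have := hS μ hμ
    have hmono : Monotone (fun n => seg H X n ⌊t * 2 ^ n⌋₊) := by
      apply monotone_nat_of_le_succ
      intro n
      rw [← seg_double hs n]
      apply seg_mono
      apply Nat.le_floor
      push_cast
      have := Nat.floor_le (a := t * 2 ^ n) (mul_nonneg ht.1 (by positivity))
      rw [pow_succ]
      linarith
    have h1 : Tendsto (fun n => μ.real (seg H X n ⌊t * 2 ^ n⌋₊)) atTop
        (𝓝 (μ.real (⋃ n, seg H X n ⌊t * 2 ^ n⌋₊))) := by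
      have := tendsto_measure_iUnion_atTop (μ := μ) hmono
      exact (ENNReal.tendsto_toReal (measure_ne_top _ _)).comp this
    have h2 : Tendsto (fun n => μ.real (seg H X n ⌊t * 2 ^ n⌋₊)) atTop
        (𝓝 (t * μ.real X)) := by
      have h3 : Tendsto (fun n : ℕ => (⌊t * 2 ^ n⌋₊ : ℝ) / 2 ^ n) atTop (𝓝 t) :=
        (tendsto_nat_floor_mul_div_atTop ht.1).comp
          (tendsto_pow_atTop_atTop_of_one_lt (by norm_num : (1 : ℝ) < 2))
      have h4 := h3.mul_const (μ.real X)
      refine h4.congr fun n => ?_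
      rw [seg_measure hH hs hX (hhalf μ hμ)]
      · ring
      · have h5 : ⌊t * 2 ^ n⌋₊ ≤ ⌊((2 ^ n : ℕ) : ℝ)⌋₊ := by
          apply Nat.floor_le_floor
          push_cast
          have : (0 : ℝ) < 2 ^ n := by positivity
          nlinarith [ht.2]
        rwa [Nat.floor_natCast] at h5
    exact tendsto_nhds_unique h1 h2

/-- adding one dominated measure -/
theorem Halv_insert {S : Set (Measure Ω)} (hS : ∀ μ ∈ S, IsFiniteMeasure μ) (h : Fam S)
    {ν μ : Measure Ω} (hν : ν ∈ S) (hμν : μ ≤ ν) : Halv (insert μ S) := by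
  intro X hX
  obtain ⟨A, A1, A2, A3, A4, A5⟩ := h X hX
  have := hS ν hν
  have : IsFiniteMeasure μ := isFiniteMeasure_of_le ν hμν
  have hdiff : ∀ (ρ : Measure Ω) [IsFiniteMeasure ρ] (s t : ℝ), s ≤ t →
      ρ.real (A t \ A s) = ρ.real (A t) - ρ.real (A s) := fun ρ _ s t hst =>
    measureReal_sdiff (A2 hst) (A1 s)
  have key : ∀ s ∈ Icc (0 : ℝ) 1, ∀ t ∈ Icc (0 : ℝ) 1, s ≤ t →
      |μ.real (A t) - μ.real (A s)| ≤ ν.real X * |t - s| := by
    intro s hs t ht hst
    rw [← hdiff μ s t hst, abs_of_nonneg measureReal_nonneg, abs_of_nonneg (by linarith)]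
    have h1 : μ.real (A t \ A s) ≤ ν.real (A t \ A s) := by
      exact ENNReal.toReal_mono (measure_ne_top _ _) (hμν _)
    refine h1.trans ?_
    rw [hdiff ν s t hst, A5 ν hν t ht, A5 ν hν s hs]
    linarith
  have hcont : ContinuousOn (fun t => μ.real (A t)) (Icc (0 : ℝ) 1) := by
    have : LipschitzOnWith (Real.toNNReal (ν.real X)) (fun t => μ.real (A t)) (Icc (0 : ℝ) 1) := by
      apply LipschitzOnWith.of_dist_le_mul
      intro s hs t ht
      rw [Real.dist_eq, Real.dist_eq, Real.coe_toNNReal _ measureReal_nonneg]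
      rcases le_total s t with h | h
      · rw [abs_sub_comm, abs_sub_comm s t]
        exact key s hs t ht h
      · exact key t ht s hs h
    exact this.continuousOn
  have hf : ContinuousOn (fun s => μ.real (A (s + 1 / 2)) - μ.real (A s)) (uIcc (0 : ℝ) (1 / 2)) := by
    rw [uIcc_of_le (by norm_num)]
    apply ContinuousOn.sub
    · apply hcont.comp (by fun_prop)
      intro s hs
      constructor <;> linarith [hs.1, hs.2]
    · apply hcont.mono
      intro s hs
      constructor <;> linarith [hs.1, hs.2]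
  have hivt := intermediate_value_uIcc hf
  have hmem : μ.real X / 2 ∈ uIcc (μ.real (A ((0 : ℝ) + 1 / 2)) - μ.real (A 0))
      (μ.real (A ((1 / 2 : ℝ) + 1 / 2)) - μ.real (A (1 / 2))) := by
    have e1 : (0 : ℝ) + 1 / 2 = 1 / 2 := by norm_num
    have e2 : (1 / 2 : ℝ) + 1 / 2 = 1 := by norm_num
    rw [e1, e2, A3, A4, measureReal_empty, sub_zero, mem_uIcc]
    rcases le_total (μ.real (A (1 / 2))) (μ.real X / 2) with h | h
    · left
      constructor <;> linarith
    · right
      constructor <;> linarith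
  obtain ⟨s, hs, hs2⟩ := hivt hmem
  rw [uIcc_of_le (by norm_num)] at hs
  simp only at hs2
  have hs01 : s ∈ Icc (0 : ℝ) 1 := ⟨hs.1, by linarith [hs.2]⟩
  have hs02 : s + 1 / 2 ∈ Icc (0 : ℝ) 1 := ⟨by linarith [hs.1], by linarith [hs.2]⟩
  refine ⟨A (s + 1 / 2) \ A s, ?_, (A1 _).diff (A1 _), ?_⟩
  · rw [← A4]
    exact sdiff_subset.trans (A2 hs02.2)
  · intro ρ hρ
    rcases hρ with hρ | hρ
    · subst hρ
      rw [hdiff ρ s _ (by linarith), hs2]
    · have := hS ρ hρ
      rw [hdiff ρ s _ (by linarith), A5 ρ hρ _ hs01, A5 ρ hρ _ hs02]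
      ring

/-- finitely many dominated measures -/
theorem Halv_finite {ν : Measure Ω} [IsFiniteMeasure ν] (h : Halv {ν}) (s : Set (Measure Ω))
    (hs : s.Finite) (hsν : ∀ μ ∈ s, μ ≤ ν) : Halv (insert ν s) := by
  induction s, hs using Set.Finite.induction_on with
  | empty => simpa using h
  | insert ha hfin ih =>
    rename_i μ s
    have h1 := ih fun ρ hρ => hsν ρ (mem_insert_of_mem _ hρ)
    have hS : ∀ ρ ∈ insert ν s, IsFiniteMeasure ρ := by
      intro ρ hρ
      rcases hρ with hρ | hρ
      · subst hρ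
        infer_instance
      · exact isFiniteMeasure_of_le ν (hsν ρ (mem_insert_of_mem _ hρ))
    have h2 := Halv_insert hS (Fam_of_Halv hS h1) (mem_insert ν s) (hsν μ (mem_insert _ _))
    rwa [insert_comm]

end lyap

/-- one nonatomic measure on the interval can be halved -/
theorem Halv_single (ν : Measure unitInterval) [IsFiniteMeasure ν] [NullSingletonClass ν] : Halv {ν} := by
  intro X hX
  have hcont : Continuous (fun y : unitInterval => ν.real (X ∩ Iic y)) := by
    have e : ∀ y : unitInterval, ν.real (X ∩ Iic y) =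
        ∫ x, (Iic y).indicator (fun _ => (1 : ℝ)) x ∂(ν.restrict X) := by
      intro y
      rw [integral_indicator_const _ measurableSet_Iic]
      rw [smul_eq_mul, mul_one, measureReal_restrict_apply measurableSet_Iic, inter_comm]
    simp_rw [e]
    rw [continuous_iff_continuousAt]
    intro y₀
    apply continuousAt_of_dominated (bound := fun _ => (1 : ℝ))
    · exact Eventually.of_forall fun y =>
        (measurable_const.indicator measurableSet_Iic).aestronglyMeasurable
    · exact Eventually.of_forall fun y => Eventually.of_forall fun x => by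
        rw [indicator]
        split_ifs <;> simp
    · exact integrable_const _
    · have h1 : ∀ᵐ x ∂(ν.restrict X), x ≠ y₀ := by
        rw [ae_iff]
        simp
      filter_upwards [h1] with x hx
      rcases lt_or_gt_of_ne hx with h | h
      · have h2 : (fun _ : unitInterval => (1 : ℝ)) =ᶠ[𝓝 y₀]
            (fun y => (Iic y).indicator (fun _ => (1 : ℝ)) x) := by
          filter_upwards [Ioi_mem_nhds h] with y hy
          have h3 : x ∈ Iic y := le_of_lt (show x < y from hy)
          rw [indicator_of_mem h3]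
        exact (continuousAt_const).congr h2
      · have h2 : (fun _ : unitInterval => (0 : ℝ)) =ᶠ[𝓝 y₀]
            (fun y => (Iic y).indicator (fun _ => (1 : ℝ)) x) := by
          filter_upwards [Iio_mem_nhds h] with y hy
          have h3 : x ∉ Iic y := not_le.2 (show y < x from hy)
          rw [indicator_of_notMem h3]
        exact (continuousAt_const).congr h2
  have h0 : ν.real (X ∩ Iic (0 : unitInterval)) = 0 := by
    have : X ∩ Iic (0 : unitInterval) ⊆ {0} := by
      intro x hx
      exact le_antisymm hx.2 unitInterval.nonneg'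
    exact measureReal_mono_null this (by simp [Measure.real])
  have h1 : ν.real (X ∩ Iic (1 : unitInterval)) = ν.real X := by
    congr 1
    apply inter_eq_left.2
    intro x _
    exact unitInterval.le_one'
  have hn : 0 ≤ ν.real X := measureReal_nonneg
  obtain ⟨y, hy⟩ := mem_range_of_exists_le_of_exists_ge hcont
    (c := ν.real X / 2) ⟨0, by rw [h0]; linarith⟩ ⟨1, by rw [h1]; linarith⟩
  refine ⟨X ∩ Iic y, inter_subset_left, hX.inter measurableSet_Iic, ?_⟩
  intro μ hμ
  rw [mem_singleton_iff] at hμ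
  rw [hμ]
  exact hy

/-- **Splitting in prescribed proportions.** -/
theorem lyapunov_partition {m r : ℕ} (μ : Fin m → Measure unitInterval)
    [∀ j, IsFiniteMeasure (μ j)] [∀ j, NullSingletonClass (μ j)] (x : Fin r → ℝ) (hx : ∀ c, 0 ≤ x c)
    (hx1 : ∑ c, x c = 1) :
    ∃ A : Fin r → Set unitInterval, (∀ c, MeasurableSet (A c)) ∧
      Pairwise (Function.onFun Disjoint A) ∧ (⋃ c, A c) = univ ∧
      ∀ c j, (μ j).real (A c) = x c * (μ j).real univ := by
  classical
  set ν : Measure unitInterval := ∑ j, μ j with hν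
  have : NullSingletonClass ν := by
    constructor
    intro a
    rw [hν, Measure.finsetSum_apply]
    simp
  have hle : ∀ ρ ∈ range μ, ρ ≤ ν := by
    rintro _ ⟨j, rfl⟩
    intro s
    rw [hν, Measure.finsetSum_apply]
    exact Finset.single_le_sum (f := fun j => μ j s) (fun _ _ => zero_le) (Finset.mem_univ j)
  have hhalf := Halv_finite (Halv_single ν) (range μ) (finite_range μ) hle
  have hS : ∀ ρ ∈ insert ν (range μ), IsFiniteMeasure ρ := by
    rintro ρ (hρ | ⟨j, rfl⟩)
    · subst hρ
      infer_instance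
    · infer_instance
  obtain ⟨B, B1, B2, B3, B4, B5⟩ := Fam_of_Halv hS hhalf univ MeasurableSet.univ
  -- partial sums
  set f : ℕ → ℝ := fun i => if h : i < r then x ⟨i, h⟩ else 0 with hf
  have hf0 : ∀ i, 0 ≤ f i := by
    intro i
    simp only [hf]
    split_ifs
    · exact hx _
    · exact le_rfl
  have hfc : ∀ c : Fin r, f c = x c := by
    intro c
    simp only [hf, dif_pos c.2]
  have hfs : ∑ i ∈ Finset.range r, f i = 1 := by
    rw [Finset.sum_range, ← hx1]
    exact Finset.sum_congr rfl fun c _ => hfc c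
  set p : ℕ → ℝ := fun i => ∑ l ∈ Finset.range i, f l with hp
  have hpm : Monotone p := by
    apply monotone_nat_of_le_succ
    intro i
    simp only [hp, Finset.sum_range_succ]
    linarith [hf0 i]
  have hp0 : p 0 = 0 := by simp [hp]
  have hpr : p r = 1 := hfs
  refine ⟨fun c => B (p (c + 1)) \ B (p c), fun c => (B1 _).diff (B1 _), ?_, ?_, ?_⟩
  · have hlt : ∀ c d : Fin r, c < d → Disjoint (B (p (c + 1)) \ B (p c)) (B (p (d + 1)) \ B (p d)) := by
      intro c d hcd
      rw [Set.disjoint_left]
      intro w hw hw2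
      have h1 : (c : ℕ) + 1 ≤ d := hcd
      exact hw2.2 (B2 (hpm h1) hw.1)
    intro c d hcd
    rcases lt_or_gt_of_ne hcd with h | h
    · exact hlt c d h
    · exact (hlt d c h).symm
  · rw [eq_univ_iff_forall]
    intro w
    have hex : ∃ i, w ∈ B (p i) := ⟨r, by rw [hpr, B4]; exact mem_univ _⟩
    have h1 := Nat.find_spec hex
    have h2 : Nat.find hex ≤ r := Nat.find_min' hex (by rw [hpr, B4]; exact mem_univ _)
    have h3 : Nat.find hex ≠ 0 := by
      intro h
      rw [h, hp0, B3] at h1
      exact h1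
    obtain ⟨i, hi⟩ := Nat.exists_eq_succ_of_ne_zero h3
    have h4 : w ∉ B (p i) := Nat.find_min hex (by omega)
    rw [mem_iUnion]
    refine ⟨⟨i, by omega⟩, ?_, h4⟩
    rw [hi] at h1
    exact h1
  · intro c j
    have h1 : p c ∈ Icc (0 : ℝ) 1 := ⟨by rw [← hp0]; exact hpm (Nat.zero_le _),
      by rw [← hpr]; exact hpm c.2.le⟩
    have h2 : p (c + 1) ∈ Icc (0 : ℝ) 1 := ⟨by rw [← hp0]; exact hpm (Nat.zero_le _),
      by rw [← hpr]; exact hpm c.2⟩
    rw [measureReal_sdiff (B2 (hpm (Nat.le_succ _))) (B1 _),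
      B5 (μ j) (mem_insert_of_mem _ ⟨j, rfl⟩) _ h1, B5 (μ j) (mem_insert_of_mem _ ⟨j, rfl⟩) _ h2]
    have h3 : p (c + 1) = p c + x c := by
      simp only [hp, Finset.sum_range_succ, hfc]
    rw [h3]
    ring

end Pool.Agent.R391.FS
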