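import Pool.Agent.R391.FS.LP

set_option autoImplicit false
set_option linter.unusedSectionVars false

/-! # The vector form for a prime number of children -/

namespace Pool.Agent.R391.FS

open Finset Filter Topology

open Classical in
/-- the vector form of the statement: `C` is the set of children -/
def GG (m : ℕ) (C : Type) [Fintype C] : Prop :=
  ∀ (U : Type) [Fintype U] (K : Finset U) (v : U → Fin m → ℝ), ∃ x : U → C → ℝ,
    (∀ k c, 0 ≤ x k c) ∧ (∀ k, ∑ c, x k c = 1) ∧
    (∀ c j, ∑ k, x k c * v k j = (1 / (Fintype.card C : ℝ)) * ∑ k, v k j) ∧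
    (K.filter (fun k => ∀ c, x k c ≠ 1)).card ≤ m * (Fintype.card C - 1) ∧
    ∀ c, ((K.card : ℤ) - ((m * (Fintype.card C - 1) : ℕ) : ℤ)) / (Fintype.card C : ℤ) ≤
      ((K.filter (fun k => x k c = 1)).card : ℤ)

section rows

variable {U C : Type} [Fintype U] [Fintype C] [DecidableEq U] [DecidableEq C]

open Classical in
lemma cut_le {x : U × C → ℝ} (h1 : ∀ k, ∑ c, x (k, c) = 1) (K : Finset U) :
    (K.filter (fun k => ∀ c, x (k, c) ≠ 1)).card + Fintype.card U ≤ (supp x).card := by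
  have e1 : (supp x).card = ∑ k : U, ∑ c : C, if x (k, c) ≠ 0 then 1 else 0 := by
    unfold supp
    rw [Finset.card_filter, ← Finset.univ_product_univ, Finset.sum_product]
  have e2 : (K.filter (fun k => ∀ c, x (k, c) ≠ 1)).card =
      ∑ k : U, if (k ∈ K ∧ ∀ c, x (k, c) ≠ 1) then 1 else 0 := by
    rw [← Finset.card_filter]
    congr 1
    ext k
    simp
  rw [e1, e2, ← Finset.card_univ, Finset.card_eq_sum_ones, ← Finset.sum_add_distrib]
  apply Finset.sum_le_sum
  intro k _
  rw [← Finset.card_filter]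
  have hne : (univ.filter (fun c => x (k, c) ≠ 0)).Nonempty := by
    by_contra h
    rw [Finset.not_nonempty_iff_eq_empty, Finset.filter_eq_empty_iff] at h
    have h2 := h1 k
    rw [Finset.sum_eq_zero (fun c _ => by simpa using h (Finset.mem_univ c))] at h2
    exact zero_ne_one h2
  split_ifs with hk
  · by_contra hcon
    have hpos := Finset.card_pos.2 hne
    have hone : (univ.filter (fun c => x (k, c) ≠ 0)).card = 1 := by omega
    obtain ⟨c, hc⟩ := Finset.card_eq_one.1 hone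
    apply hk.2 c
    rw [← h1 k]
    symm
    apply Finset.sum_eq_single c
    · intro c' _ hc'
      by_contra h
      have : c' ∈ univ.filter (fun c => x (k, c) ≠ 0) := by simp [h]
      rw [hc, Finset.mem_singleton] at this
      exact hc' this
    · simp
  · have hpos := Finset.card_pos.2 hne
    omega

open Classical in
lemma card_le_cut (x : U × C → ℝ) (K : Finset U) :
    K.card ≤ (K.filter (fun k => ∀ c, x (k, c) ≠ 1)).card +
      ∑ c, (K.filter (fun k => x (k, c) = 1)).card := by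
  have h1 : K ⊆ K.filter (fun k => ∀ c, x (k, c) ≠ 1) ∪
      univ.biUnion (fun c => K.filter (fun k => x (k, c) = 1)) := by
    intro k hk
    rw [mem_union, mem_filter, mem_biUnion]
    by_cases h : ∀ c, x (k, c) ≠ 1
    · exact Or.inl ⟨hk, h⟩
    · push Not at h
      obtain ⟨c, hc⟩ := h
      exact Or.inr ⟨c, mem_univ _, mem_filter.2 ⟨hk, hc⟩⟩
  exact (card_le_card h1).trans ((card_union_le _ _).trans
    (Nat.add_le_add_left card_biUnion_le _))

end rows

section prime

variable {p : ℕ} [hp : Fact p.Prime] {U : Type} [Fintype U] [DecidableEq U] {m : ℕ}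

instance : NeZero p := ⟨hp.out.ne_zero⟩

/-- the target space -/
abbrev FF (U : Type) (p m : ℕ) : Type := (U → ℝ) × ({c : ZMod p // c ≠ 0} → Fin m → ℝ)

/-- the constraints -/
noncomputable def Lam (p : ℕ) [Fact p.Prime] (v : U → Fin m → ℝ) :
    (U × ZMod p → ℝ) →ₗ[ℝ] FF U p m where
  toFun x := (fun k => ∑ c, x (k, c), fun c j => ∑ k, x (k, c.1) * v k j)
  map_add' x y := by
    ext1
    · funext k
      simp [sum_add_distrib]
    · funext c j
      simp [sum_add_distrib, add_mul]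
  map_smul' a x := by
    ext1
    · funext k
      simp [mul_sum]
    · funext c j
      simp [mul_sum, mul_assoc]

/-- the right-hand side -/
noncomputable def bb0 (p : ℕ) (v : U → Fin m → ℝ) : FF U p m :=
  (fun _ => 1, fun _ j => (1 / (p : ℝ)) * ∑ k, v k j)

lemma finrank_FF : Module.finrank ℝ (FF U p m) = Fintype.card U + m * (p - 1) := by
  rw [Module.finrank_prod, Module.finrank_fintype_fun_eq_card, Module.finrank_pi_fintype]
  simp only [Module.finrank_fintype_fun_eq_card, Fintype.card_fin, sum_const, card_univ,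
    smul_eq_mul]
  have : Fintype.card {c : ZMod p // c ≠ 0} = p - 1 := by
    rw [Fintype.card_subtype_compl]
    simp [ZMod.card]
  rw [this, mul_comm]

lemma mem_Pol {v : U → Fin m → ℝ} {x : U × ZMod p → ℝ} :
    x ∈ Pol (Lam p v) (bb0 p v) ↔ (∀ i, 0 ≤ x i) ∧ (∀ k, ∑ c, x (k, c) = 1) ∧
      ∀ c j, ∑ k, x (k, c) * v k j = (1 / (p : ℝ)) * ∑ k, v k j := by
  constructor
  · rintro ⟨h1, h2⟩
    have h3 : ∀ k, ∑ c, x (k, c) = 1 := fun k => congrFun (congrArg Prod.fst h2) k
    have h4 : ∀ (c : {c : ZMod p // c ≠ 0}) j, ∑ k, x (k, c.1) * v k j =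
        (1 / (p : ℝ)) * ∑ k, v k j := fun c j => congrFun (congrFun (congrArg Prod.snd h2) c) j
    refine ⟨h1, h3, fun c j => ?_⟩
    by_cases hc : c = 0
    · subst hc
      have h5 : ∑ c, ∑ k, x (k, c) * v k j = ∑ k, v k j := by
        rw [sum_comm]
        apply sum_congr rfl
        intro k _
        rw [← sum_mul, h3, one_mul]
      rw [← Finset.add_sum_erase _ _ (mem_univ (0 : ZMod p))] at h5
      have h6 : ∑ c ∈ univ.erase (0 : ZMod p), ∑ k, x (k, c) * v k j =
          ∑ c ∈ univ.erase (0 : ZMod p), (1 / (p : ℝ)) * ∑ k, v k j := by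
        apply sum_congr rfl
        intro c hc
        exact h4 ⟨c, (mem_erase.1 hc).1⟩ j
      rw [h6, sum_const, card_erase_of_mem (mem_univ _), card_univ, ZMod.card, nsmul_eq_mul] at h5
      have hp1 : 1 ≤ p := hp.out.one_lt.le
      rw [Nat.cast_sub hp1] at h5
      have hp0 : (p : ℝ) ≠ 0 := by exact_mod_cast hp.out.ne_zero
      have h7 : ((p : ℝ) - ((1 : ℕ) : ℝ)) * (1 / (p : ℝ) * ∑ k, v k j) =
          ∑ k, v k j - (1 / (p : ℝ)) * ∑ k, v k j := by
        push_cast
        field_simp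
      rw [h7] at h5
      linarith
    · exact h4 ⟨c, hc⟩ j
  · rintro ⟨h1, h2, h3⟩
    refine ⟨h1, ?_⟩
    apply Prod.ext
    · funext k
      exact h2 k
    · funext c j
      exact h3 c.1 j

lemma Pol_le_one {v : U → Fin m → ℝ} {x : U × ZMod p → ℝ}
    (hx : x ∈ Pol (Lam p v) (bb0 p v)) (i : U × ZMod p) : x i ≤ 1 := by
  rw [mem_Pol] at hx
  rw [← hx.2.1 i.1]
  exact Finset.single_le_sum (f := fun c => x (i.1, c)) (fun c _ => hx.1 _) (mem_univ i.2)

lemma Pol_compact (v : U → Fin m → ℝ) : IsCompact (Pol (Lam p v) (bb0 p v)) := by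
  apply Metric.isCompact_of_isClosed_isBounded
  · have h1 : Pol (Lam p v) (bb0 p v) = (⋂ i, {x : U × ZMod p → ℝ | 0 ≤ x i}) ∩
        (Lam p v) ⁻¹' {bb0 p v} := by
      ext x
      simp [Pol]
    rw [h1]
    apply IsClosed.inter
    · refine isClosed_iInter fun i => ?_
      exact isClosed_le continuous_const (continuous_apply i)
    · exact isClosed_singleton.preimage (LinearMap.continuous_of_finiteDimensional _)
  · rw [isBounded_iff_forall_norm_le]
    refine ⟨1, fun x hx => ?_⟩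
    rw [pi_norm_le_iff_of_nonneg zero_le_one]
    intro i
    rw [Real.norm_eq_abs, abs_of_nonneg (hx.1 i)]
    exact Pol_le_one hx i

lemma Pol_nonempty (v : U → Fin m → ℝ) : (Pol (Lam p v) (bb0 p v)).Nonempty := by
  refine ⟨fun _ => 1 / (p : ℝ), ?_⟩
  rw [mem_Pol]
  have hp0 : (p : ℝ) ≠ 0 := by exact_mod_cast hp.out.ne_zero
  refine ⟨fun _ => by positivity, fun k => ?_, fun c j => ?_⟩
  · rw [sum_const, card_univ, ZMod.card, nsmul_eq_mul]
    field_simp
  · rw [mul_sum]

/-- the cyclic shift of the children -/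
noncomputable def sft (U : Type) [Fintype U] (p : ℕ) [Fact p.Prime] :
    (U × ZMod p → ℝ) →L[ℝ] (U × ZMod p → ℝ) :=
  LinearMap.toContinuousLinearMap
    { toFun := fun w i => w (i.1, i.2 - 1)
      map_add' := fun _ _ => rfl
      map_smul' := fun _ _ => rfl }

lemma sft_apply (w : U × ZMod p → ℝ) (i : U × ZMod p) : sft U p w i = w (i.1, i.2 - 1) := rfl

lemma sft_iter (n : ℕ) (w : U × ZMod p → ℝ) (i : U × ZMod p) :
    (sft U p)^[n] w i = w (i.1, i.2 - n) := by
  induction n generalizing i with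
  | zero => simp
  | succ n ih =>
    rw [Function.iterate_succ_apply', sft_apply, ih]
    congr 2
    push_cast
    ring

lemma sft_p (w : U × ZMod p → ℝ) : (sft U p)^[p] w = w := by
  funext i
  rw [sft_iter]
  simp

lemma sum_sft (w : U × ZMod p → ℝ) : ∑ i, sft U p w i = ∑ i, w i := by
  apply Fintype.sum_equiv ((Equiv.refl U).prodCongr (Equiv.subRight (1 : ZMod p)))
  intro i
  rfl

lemma pr_sft (w x : U × ZMod p → ℝ) : pr (sft U p w) (sft U p x) = pr w x := by
  unfold pr
  exact sum_sft (fun i => w i * x i)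

lemma sft_mem {v : U → Fin m → ℝ} {x : U × ZMod p → ℝ}
    (hx : x ∈ Pol (Lam p v) (bb0 p v)) : sft U p x ∈ Pol (Lam p v) (bb0 p v) := by
  rw [mem_Pol] at hx ⊢
  refine ⟨fun i => hx.1 _, fun k => ?_, fun c j => hx.2.2 (c - 1) j⟩
  rw [← hx.2.1 k]
  apply Fintype.sum_equiv (Equiv.subRight (1 : ZMod p))
  intro c
  rfl

lemma sft_iter_mem {v : U → Fin m → ℝ} {x : U × ZMod p → ℝ}
    (hx : x ∈ Pol (Lam p v) (bb0 p v)) (n : ℕ) :
    (sft U p)^[n] x ∈ Pol (Lam p v) (bb0 p v) := by
  induction n with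
  | zero => exact hx
  | succ n ih =>
    rw [Function.iterate_succ_apply']
    exact sft_mem ih

lemma sft_mx {v : U → Fin m → ℝ} {w x : U × ZMod p → ℝ}
    (hx : IsMx (Lam p v) (bb0 p v) w x) :
    IsMx (Lam p v) (bb0 p v) (sft U p w) (sft U p x) := by
  refine ⟨sft_mem hx.1, fun y hy => ?_⟩
  have h1 : sft U p ((sft U p)^[p - 1] y) = y := by
    rw [← Function.iterate_succ_apply' (sft U p)]
    have hp1 : 1 ≤ p := hp.out.one_lt.le
    have : (p - 1).succ = p := by omega
    rw [this]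
    exact sft_p y
  rw [pr_sft, ← h1, pr_sft]
  exact hx.2 _ (sft_iter_mem hy _)

open Classical in
/-- the number of undamaged cookies which are full for `c` -/
noncomputable def Nc (K : Finset U) (x : U × ZMod p → ℝ) (c : ZMod p) : ℕ :=
  (K.filter (fun k => x (k, c) = 1)).card

lemma Nc_sft (K : Finset U) (x : U × ZMod p → ℝ) (c : ZMod p) :
    Nc K (sft U p x) (c + 1) = Nc K x c := by
  unfold Nc
  congr 1
  ext k
  simp [sft_apply]

/-- `x (k, c) = 1` depends on the support only -/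
lemma eq_one_iff {v : U → Fin m → ℝ} {x : U × ZMod p → ℝ}
    (hx : x ∈ Pol (Lam p v) (bb0 p v)) (k : U) (c : ZMod p) :
    x (k, c) = 1 ↔ ∀ c', c' ≠ c → (k, c') ∉ supp x := by
  rw [mem_Pol] at hx
  have h1 := hx.2.1 k
  rw [← Finset.add_sum_erase _ _ (mem_univ c)] at h1
  constructor
  · intro h c' hc' hmem
    rw [h] at h1
    have h2 : ∑ c ∈ univ.erase c, x (k, c) = 0 := by linarith
    rw [Finset.sum_eq_zero_iff_of_nonneg (fun _ _ => hx.1 _)] at h2
    exact mem_supp.1 hmem (h2 c' (mem_erase.2 ⟨hc', mem_univ _⟩))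
  · intro h
    have h2 : ∑ c ∈ univ.erase c, x (k, c) = 0 := by
      apply sum_eq_zero
      intro c' hc'
      have := h c' (mem_erase.1 hc').1
      rw [mem_supp, not_not] at this
      exact this
    rw [h2] at h1
    linarith

lemma Nc_congr {v : U → Fin m → ℝ} {K : Finset U} {x y : U × ZMod p → ℝ}
    (hx : x ∈ Pol (Lam p v) (bb0 p v)) (hy : y ∈ Pol (Lam p v) (bb0 p v))
    (h : supp x = supp y) (c : ZMod p) : Nc K x c = Nc K y c := by
  unfold Nc
  congr 1
  ext k
  rw [mem_filter, mem_filter, eq_one_iff hx, eq_one_iff hy, h]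

/-- the closed cover -/
def Ac (v : U → Fin m → ℝ) (K : Finset U) (T : ℕ) (c : ZMod p) : Set (U × ZMod p → ℝ) :=
  {w | ∃ x, IsMx (Lam p v) (bb0 p v) w x ∧ Nc K x c < T}

lemma Ac_closed (v : U → Fin m → ℝ) (K : Finset U) (T : ℕ) (c : ZMod p) :
    IsClosed (Ac (p := p) v K T c) := by
  classical
  have h1 : Ac (p := p) v K T c = ⋃ S : Finset (U × ZMod p),
      {w | ∃ x, IsMx (Lam p v) (bb0 p v) w x ∧ Nc K x c < T ∧ supp x = S} := by
    ext w
    simp only [Ac, Set.mem_ofPred_eq, Set.mem_iUnion]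
    constructor
    · rintro ⟨x, h1, h2⟩
      exact ⟨supp x, x, h1, h2, rfl⟩
    · rintro ⟨S, x, h1, h2, -⟩
      exact ⟨x, h1, h2⟩
  rw [h1]
  apply isClosed_iUnion_of_finite
  intro S
  by_cases hex : ∃ x0 ∈ Pol (Lam p v) (bb0 p v), Nc K x0 c < T ∧ supp x0 = S
  · obtain ⟨x0, hx0, hN, hS⟩ := hex
    have h2 : {w | ∃ x, IsMx (Lam p v) (bb0 p v) w x ∧ Nc K x c < T ∧ supp x = S} =
        {w | IsMx (Lam p v) (bb0 p v) w x0} := by
      ext w
      simp only [Set.mem_ofPred_eq]
      constructor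
      · rintro ⟨x, hx, -, hxS⟩
        exact mx_same hx hx0 (by rw [hS, hxS])
      · intro h
        exact ⟨x0, h, hN, hS⟩
    rw [h2]
    exact isClosed_mx x0 hx0
  · have h2 : {w | ∃ x, IsMx (Lam p v) (bb0 p v) w x ∧ Nc K x c < T ∧ supp x = S} = ∅ := by
      rw [Set.eq_empty_iff_forall_notMem]
      rintro w ⟨x, hx, hN, hxS⟩
      exact hex ⟨x, hx.1, hN, hxS⟩
    rw [h2]
    exact isClosed_empty

lemma Ac_shift (v : U → Fin m → ℝ) (K : Finset U) (T : ℕ) (c : ZMod p)
    (w : U × ZMod p → ℝ) (hw : w ∈ Ac (p := p) v K T c) :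
    sft U p w ∈ Ac (p := p) v K T (c + 1) := by
  obtain ⟨x, hx, hN⟩ := hw
  exact ⟨sft U p x, sft_mx hx, by rw [Nc_sft]; exact hN⟩

open Classical in
theorem prime_core (v : U → Fin m → ℝ) (K : Finset U) (T : ℕ)
    (hT : p * T + m * (p - 1) ≤ K.card) :
    ∃ x ∈ Pol (Lam p v) (bb0 p v), (supp x).card ≤ Fintype.card U + m * (p - 1) ∧
      ∀ c, T ≤ Nc K x c := by
  by_contra hcon
  push Not at hcon
  have hcov : ∀ w, ∃ c, w ∈ Ac (p := p) v K T c := by
    intro w
    obtain ⟨x, hx, hcard⟩ := exists_small (Pol_compact (p := p) v) (Pol_nonempty v) w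
    rw [finrank_FF] at hcard
    obtain ⟨c, hc⟩ := hcon x hx.1 hcard
    exact ⟨c, x, hx, hc⟩
  obtain ⟨w, hw⟩ := exists_generic (Lam p v) (sft U p : (U × ZMod p → ℝ) →ₗ[ℝ] _)
    (fun w => sft_p w)
  obtain ⟨g, t, ht, hA⟩ := zp_cover (sft U p) sft_p w (Ac (p := p) v K T)
    (Ac_closed v K T) hcov (Ac_shift v K T)
  choose x hx hN using hA
  -- the average
  have hp0 : (p : ℝ) ≠ 0 := by exact_mod_cast hp.out.ne_zero
  have hp1 : 1 ≤ p := hp.out.one_lt.le
  set xb : U × ZMod p → ℝ := fun i => (1 / (p : ℝ)) * ∑ c, x c i with hxb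
  have hxbP : xb ∈ Pol (Lam p v) (bb0 p v) := by
    rw [mem_Pol]
    refine ⟨fun i => ?_, fun k => ?_, fun c j => ?_⟩
    · apply mul_nonneg (by positivity)
      exact sum_nonneg fun c _ => (hx c).1.1 i
    · simp only [hxb]
      rw [← mul_sum, sum_comm]
      have : ∀ c, ∑ c', x c (k, c') = 1 := fun c => (mem_Pol.1 (hx c).1).2.1 k
      simp_rw [this]
      rw [sum_const, card_univ, ZMod.card, nsmul_eq_mul]
      field_simp
    · simp only [hxb]
      have h1 : ∀ k, (1 / (p : ℝ) * ∑ c', x c' (k, c)) * v k j =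
          1 / (p : ℝ) * ∑ c', x c' (k, c) * v k j := by
        intro k
        rw [mul_assoc, sum_mul]
      simp_rw [h1]
      rw [← mul_sum, sum_comm]
      have : ∀ c', ∑ k, x c' (k, c) * v k j = (1 / (p : ℝ)) * ∑ k, v k j :=
        fun c' => (mem_Pol.1 (hx c').1).2.2 c j
      simp_rw [this]
      rw [sum_const, card_univ, ZMod.card, nsmul_eq_mul]
      field_simp
  have hxbM : IsMx (Lam p v) (bb0 p v) (∑ i, t i • pw (sft U p) (g i) (w i)) xb := by
    refine ⟨hxbP, fun y hy => ?_⟩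
    have h1 : pr (∑ i, t i • pw (sft U p) (g i) (w i)) xb =
        (1 / (p : ℝ)) * ∑ c, pr (∑ i, t i • pw (sft U p) (g i) (w i)) (x c) := by
      have h2 : xb = (1 / (p : ℝ)) • ∑ c, x c := by
        funext i
        simp [hxb, Finset.sum_apply]
      rw [h2, pr_smul]
      congr 1
      have h3 : ∀ (s : Finset (ZMod p)) (W : U × ZMod p → ℝ), pr W (∑ c ∈ s, x c) =
          ∑ c ∈ s, pr W (x c) := by
        intro s W
        induction s using Finset.induction_on with
        | empty => simp [pr]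
        | insert a s ha ih => rw [sum_insert ha, sum_insert ha, pr_add, ih]
      exact h3 _ _
    rw [h1]
    have h2 : ∀ c, pr (∑ i, t i • pw (sft U p) (g i) (w i)) y ≤
        pr (∑ i, t i • pw (sft U p) (g i) (w i)) (x c) := fun c => (hx c).2 y hy
    have h3 : (p : ℝ) * pr (∑ i, t i • pw (sft U p) (g i) (w i)) y ≤
        ∑ c, pr (∑ i, t i • pw (sft U p) (g i) (w i)) (x c) := by
      have := sum_le_sum fun (c : ZMod p) (_ : c ∈ univ) => h2 c
      rw [sum_const, card_univ, ZMod.card, nsmul_eq_mul] at this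
      exact this
    rw [div_mul_eq_mul_div, one_mul, le_div_iff₀ (by positivity)]
    linarith
  have hfr := finrank_lt (b := bb0 p v) hw ht hxbM
  have hdim := card_le_dim (Lam p v) (supp xb)
  rw [finrank_FF] at hdim
  have hcut := cut_le (x := xb) (fun k => (mem_Pol.1 hxbP).2.1 k) K
  have hK := card_le_cut xb K
  have hNb : ∀ c, (K.filter (fun k => xb (k, c) = 1)).card + 1 ≤ T := by
    intro c
    have h1 : (K.filter (fun k => xb (k, c) = 1)).card ≤ Nc K (x c) c := by
      unfold Nc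
      apply card_le_card
      intro k hk
      rw [mem_filter] at hk ⊢
      refine ⟨hk.1, ?_⟩
      have h2 : ∑ c', x c' (k, c) = p := by
        have h3 : (1 / (p : ℝ)) * ∑ c', x c' (k, c) = 1 := hk.2
        field_simp at h3
        exact h3
      by_contra hne
      have h3 : x c (k, c) < 1 := lt_of_le_of_ne (Pol_le_one (hx c).1 _) hne
      have h4 : ∑ c', x c' (k, c) < ∑ c' : ZMod p, (1 : ℝ) :=
        sum_lt_sum (fun c' _ => Pol_le_one (hx c').1 _) ⟨c, mem_univ _, h3⟩
      rw [h2] at h4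
      simp [ZMod.card] at h4
    have := hN c
    omega
  have hsum : ∑ c, (K.filter (fun k => xb (k, c) = 1)).card + p ≤ p * T := by
    have h1 := sum_le_sum fun (c : ZMod p) (_ : c ∈ univ) => hNb c
    rw [sum_add_distrib, sum_const, sum_const, card_univ, ZMod.card] at h1
    simpa using h1
  omega

theorem GG_prime (m p : ℕ) [hp : Fact p.Prime] : GG m (ZMod p) := by
  classical
  intro U _ K v
  have hp1 : 1 ≤ p := hp.out.one_lt.le
  have fin : ∀ x ∈ Pol (Lam p v) (bb0 p v), (supp x).card ≤ Fintype.card U + m * (p - 1) →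
      ∀ T : ℤ, (∀ c, T ≤ (Nc K x c : ℤ)) →
      ((K.card : ℤ) - ((m * (p - 1) : ℕ) : ℤ)) / (p : ℤ) ≤ T →
      ∃ x : U → ZMod p → ℝ,
    (∀ k c, 0 ≤ x k c) ∧ (∀ k, ∑ c, x k c = 1) ∧
    (∀ c j, ∑ k, x k c * v k j = (1 / (Fintype.card (ZMod p) : ℝ)) * ∑ k, v k j) ∧
    (K.filter (fun k => ∀ c, x k c ≠ 1)).card ≤ m * (Fintype.card (ZMod p) - 1) ∧
    ∀ c, ((K.card : ℤ) - ((m * (Fintype.card (ZMod p) - 1) : ℕ) : ℤ)) /
        (Fintype.card (ZMod p) : ℤ) ≤ ((K.filter (fun k => x k c = 1)).card : ℤ) := by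
    intro x hx hsupp T hT1 hT2
    have hm := mem_Pol.1 hx
    refine ⟨fun k c => x (k, c), fun k c => hm.1 _, hm.2.1, ?_, ?_, ?_⟩
    · rw [ZMod.card]
      exact hm.2.2
    · rw [ZMod.card]
      have h0 := cut_le (x := x) hm.2.1 K
      have h1 : (K.filter (fun k => ∀ c, x (k, c) ≠ 1)).card ≤ m * (p - 1) := by omega
      exact h1
    · intro c
      rw [ZMod.card]
      have h1 := hT1 c
      unfold Nc at h1
      exact hT2.trans h1
  by_cases hle : m * (p - 1) ≤ K.card
  · obtain ⟨T, hTdef⟩ : ∃ T : ℕ, T = (K.card - m * (p - 1)) / p := ⟨_, rfl⟩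
    have hT : p * T + m * (p - 1) ≤ K.card := by
      have h1 := Nat.mul_div_le (K.card - m * (p - 1)) p
      rw [← hTdef] at h1
      have h2 : p * T ≤ K.card - m * (p - 1) := h1
      have := Nat.sub_add_cancel hle
      omega
    obtain ⟨x, hx, hs, hN⟩ := prime_core (p := p) v K T hT
    apply fin x hx hs T (fun c => by exact_mod_cast hN c)
    rw [hTdef, ← Nat.cast_sub hle]
    exact_mod_cast le_rfl
  · obtain ⟨x, hx, hcard⟩ := exists_small (Pol_compact (p := p) v) (Pol_nonempty v) 0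
    rw [finrank_FF] at hcard
    apply fin x hx.1 hcard 0 (fun c => by positivity)
    push Not at hle
    have h1 : (K.card : ℤ) < ((m * (p - 1) : ℕ) : ℤ) := by exact_mod_cast hle
    have hp0 : (0 : ℤ) < (p : ℤ) := by exact_mod_cast hp1
    have := Int.ediv_lt_of_lt_mul (a := (K.card : ℤ) - ((m * (p - 1) : ℕ) : ℤ)) (b := 0) hp0
      (by linarith)
    exact this.le

end prime

end Pool.Agent.R391.FS
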